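import Pool.Agent.Y667.QK.Stm
import Pool.Agent.TH841.NF.One
import Pool.Agent.Y667.PA.Root2

/-!
# Project QK (helper667): statements of the parts, second list
-/

set_option autoImplicit false

namespace Pool.Agent.Y667.QK

open Finset Filter Pool.Agent.W262.RK Pool.Agent.W307.RT Pool.Agent.W307.RS Pool.Agent.W307.SE
  Pool.Agent.W307.FK Pool.Agent.Y667.RP Pool.Agent.Y667.RZ

/-- **PARE** (the parity is the same for the twist by `t`, `f` not dividing `t`). -/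
def St_PARE : Prop := ∀ (f β t : ℕ) (s : Fin 3 → ℕ), Flip f β → AdT (f * t) →
  Squarefree (∏ j, s j) → Odd (∏ j, s j) → Nat.Coprime (f * t) (∏ j, s j) →
  (s 0 : ℤ) - s 1 = 32 * s 2 → s 0 % 8 = 1 → s 1 % 8 = 1 → RC f β (f * t) (s 0) (s 1) →
  (∀ σ : ℤ, σ = -1 ∨ σ = 2 ∨ σ = -2 → ∃ p : ℕ, p.Prime ∧ p ∣ ∏ j, s j ∧ jacobiSym σ p = -1) →
    ∃ k k' : ℕ, (V0 s (sgF (s 0) (s 1) (∏ j, s j))).ncard = 2 ^ k ∧
      (Vt f t s (sgF (s 0) (s 1) (∏ j, s j))).ncard = 2 ^ k' ∧ Even (k + k')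

/-- **ROOT** (the root numbers of the twists). -/
def St_ROOT : Prop := ∀ (f β τ : ℕ) (s : Fin 3 → ℕ), Flip f β → AdT τ → Pool.Agent.Y667.PA.DP s →
  Nat.Coprime τ (∏ j, s j) → RC f β τ (s 0) (s 1) → ∀ k : ℤ, (s 0 : ℤ) + s 1 = 3 * k →
    Pool.Agent.Y667.PA.HasRootNumber
      ⟨0, 0, 0, ((Pool.Agent.Y285.RP.cc ((τ : ℤ) * s 0) ((τ : ℤ) * s 1) ((τ : ℤ) * k)).1 : ℚ),
        ((Pool.Agent.Y285.RP.cc ((τ : ℤ) * s 0) ((τ : ℤ) * s 1) ((τ : ℤ) * k)).2 : ℚ)⟩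
      ((-1) ^ (((∏ j, s j).primeFactors \ sgF (s 0) (s 1) (∏ j, s j)).card +
        (if f ∣ τ then 1 else 0)))

/-- **DEG** (the degree of the multiquadratic field). -/
def St_DEG : Prop := ∀ (m : ℕ) (q q' : Fin m → ℕ), (∀ j, (q j).Prime) → (∀ j, (q' j).Prime) →
  Function.Injective q → Function.Injective q' → (∀ i j, q i ≠ q' j) →
  ∀ (F : Type) [Field F] [NumberField F],
    Pool.Agent.TH841.NF.Gen F (fun j => ((q j * q' j : ℕ) : ℤ)) → Module.finrank ℚ F = 2 ^ m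

/-- **FLIP** (the class `β` exists; `β = f + 1 - n`, `n` the least nonresidue). -/
def St_FLIP : Prop := ∀ f : ℕ, f.Prime → f % 8 = 1 → ∃ β : ℕ, Flip f β

/-- **PRM** (primes which are squares modulo each other). -/
def St_PRM : Prop := ∀ f : ℕ, f.Prime → f % 8 = 1 → ∀ (k z : ℕ) (ε : ℝ), 0 < ε →
  ∃ p : Fin k → ℕ, Function.Injective p ∧ (∀ i, (p i).Prime) ∧ (∀ i, z < p i) ∧
    AdT (f * ∏ i, p i) ∧ ∑ i, 1 / (p i : ℝ) ≤ ε

end Pool.Agent.Y667.QK
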