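import Pool.Agent.Y667.RZ.Stm2
import Pool.Agent.Y285.RP.CV

/-!
# Project QK (helper667): statements of the parts

The twists by `t` and by `f * t` of the curves `y² = x (x - a) (x - b)`; `t` is a product of primes of
a fixed set, the constants depend only on the number of the primes of `t`. The case `t = 1`, `f = 17`
is the project RZ (`V0`, `V17`).
-/

set_option autoImplicit false

namespace Pool.Agent.Y667.QK

open Finset Filter Pool.Agent.W262.RK Pool.Agent.W307.RT Pool.Agent.W307.RS Pool.Agent.W307.SE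
  Pool.Agent.W307.FK Pool.Agent.Y667.RP Pool.Agent.Y667.RZ

/-- the primes with negative sign of the twist by `τ` -/
def twt (τ m : ℕ) (E : Finset ℕ) : Finset ℕ :=
  m.primeFactors.filter (fun p => ¬ (p ∈ E ↔ jacobiSym τ p = -1))

/-- the local conditions of the twist by `τ`; at the primes `q ≠ f` of `τ` we have `a ≡ 1`,
`b ≡ - 1`, at `f` we have `a ≡ 1`, `b ≡ β`, `β` a square, `1 - β` not a square -/
def Lt (f τ : ℕ) (s : Fin 3 → ℕ) (E : Finset ℕ) (p : ℕ) (v w h g : Bool) : Prop :=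
  if p ∣ τ then h = false ∧ g = (v && decide (p = f)) else LF s (twt τ (∏ j, s j) E) p v w h g

/-- the classes of the twist by `τ` -/
def Vt (f τ : ℕ) (s : Fin 3 → ℕ) (E : Finset ℕ) : Set (ℤ × ℤ) := VG (τ * ∏ j, s j) (Lt f τ s E)

/-- the admissible twists: squarefree, all the primes are `1` modulo `8` and squares modulo each
other -/
structure AdT (τ : ℕ) : Prop where
  sqf : Squarefree τ
  m8 : ∀ q ∈ τ.primeFactors, q % 8 = 1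
  res : ∀ q ∈ τ.primeFactors, ∀ q' ∈ τ.primeFactors, q ≠ q' → jacobiSym q q' = 1

/-- the prime `f` and the class `β` modulo `f` -/
structure Flip (f β : ℕ) : Prop where
  pr : f.Prime
  m8 : f % 8 = 1
  lt : β < f
  b1 : jacobiSym β f = 1
  b2 : jacobiSym (1 - (β : ℤ)) f = -1

/-- the residue classes of `a`, `b` modulo the primes of `τ` -/
def RC (f β τ a b : ℕ) : Prop :=
  ∀ q ∈ τ.primeFactors, a % q = 1 ∧ (q = f → b % q = β) ∧ (q ≠ f → (b + 1) % q = 0)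

/-- **VN** (finite, and bounded by the local count). -/
def St_VN : Prop := ∀ (f τ : ℕ) (s : Fin 3 → ℕ) (E : Finset ℕ), AdT τ → Squarefree (∏ j, s j) →
  Odd (∏ j, s j) → Nat.Coprime τ (∏ j, s j) → (Vt f τ s E).Finite ∧
    (Vt f τ s E).ncard ≤ 4 ^ (τ.primeFactors.card + 1) * NL (∏ j, s j) (LF s (twt τ (∏ j, s j) E))

/-- **KILL** (a prime with a nontrivial symbol kills at least half of the classes). -/
def St_KILL : Prop := ∀ (f τ : ℕ) (s : Fin 3 → ℕ) (E E' : Finset ℕ) (w : ℤ × ℤ) (p : ℕ) (j : Fin 3),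
  AdT τ → Squarefree (∏ j, s j) → Odd (∏ j, s j) → Nat.Coprime τ (∏ j, s j) → w ∈ Vt f τ s E →
  p.Prime → p ≠ 2 → ¬ p ∣ τ → ¬ p ∣ ∏ j, s j →
  E' ∩ (∏ j, s j).primeFactors = E ∩ (∏ j, s j).primeFactors →
  phi j (sgn p w.1) (sgn p w.2) = true →
    Vt f τ (Function.update s j (s j * p)) E' ⊆ Vt f τ s E ∧
    2 * (Vt f τ (Function.update s j (s j * p)) E').ncard ≤ (Vt f τ s E).ncard

/-- **NG** (for at least one of the two signs there is no new class; a new prime at most doubles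
the number of the classes). -/
def St_NG : Prop := ∀ (f τ : ℕ) (s : Fin 3 → ℕ) (E : Finset ℕ) (p : ℕ) (j : Fin 3),
  AdT τ → Squarefree (∏ j, s j) → Odd (∏ j, s j) → Nat.Coprime τ (∏ j, s j) →
  E ⊆ (∏ j, s j).primeFactors → p.Prime → p ≠ 2 → ¬ p ∣ τ → ¬ p ∣ ∏ j, s j →
    (Vt f τ (Function.update s j (s j * p)) E ⊆ Vt f τ s E ∨
      Vt f τ (Function.update s j (s j * p)) (insert p E) ⊆ Vt f τ s E) ∧
    ∀ E' : Finset ℕ, E' = E ∨ E' = insert p E →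
      (Vt f τ (Function.update s j (s j * p)) E').ncard ≤ 2 * (Vt f τ s E).ncard

open Classical in
/-- **GD** (a positive proportion of the data has no class for the twists by `t` and by `f t`; the
constant depends on the number of the primes of `t` only). -/
def St_GD : Prop := ∀ f : ℕ, f.Prime → f % 8 = 1 → ∃ z0 : ℕ, f ≤ z0 ∧ ∀ z : ℕ, z0 ≤ z →
  ∀ κ : ℝ, 0 < κ → ∀ m : ℕ, ∃ c : ℝ, 0 < c ∧ ∃ ε : ℝ, 0 < ε ∧ ∀ D : ℕ, AdT (f * D) →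
  (∀ q ∈ D.primeFactors, z < q) → ∑ q ∈ D.primeFactors, 1 / (q : ℝ) ≤ ε →
  ∃ X0 : ℕ, ∀ X : ℕ, X0 ≤ X → ∀ t ∈ D.divisors, t.primeFactors.card ≤ m →
    c * Real.log X ^ 3 ≤ ∑ s ∈ (Trip z ((X : ℝ) ^ κ)).filter (fun s => Nat.Coprime D (∏ j, s j)),
      mu s * (((∏ j, s j).primeFactors.powerset.filter
        (fun E => Vt f t s E = {(1, 1)} ∧ Vt f (f * t) s E = {(1, 1)})).card : ℝ)

/-- **SEL** (the 2-Selmer group of the twist by `τ`). -/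
def St_SEL : Prop := ∀ (f β τ : ℕ) (s : Fin 3 → ℕ), Flip f β → AdT τ → Squarefree (∏ j, s j) →
  Odd (∏ j, s j) → Nat.Coprime τ (∏ j, s j) → (s 0 : ℤ) - s 1 = 32 * s 2 → s 0 % 8 = 1 →
  s 1 % 8 = 1 → RC f β τ (s 0) (s 1) →
    Sel ((τ : ℤ) * (s 0 : ℤ)) ((τ : ℤ) * (s 1 : ℤ)) ⊆ Vt f τ s (sgF (s 0) (s 1) (∏ j, s j))

/-- **PAR** (parity). -/
def St_PAR : Prop := ∀ (f β t : ℕ) (s : Fin 3 → ℕ), Flip f β → AdT (f * t) →
  Squarefree (∏ j, s j) → Odd (∏ j, s j) → Nat.Coprime (f * t) (∏ j, s j) →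
  (s 0 : ℤ) - s 1 = 32 * s 2 → s 0 % 8 = 1 → s 1 % 8 = 1 → RC f β (f * t) (s 0) (s 1) →
  (∀ σ : ℤ, σ = -1 ∨ σ = 2 ∨ σ = -2 → ∃ p : ℕ, p.Prime ∧ p ∣ ∏ j, s j ∧ jacobiSym σ p = -1) →
    ∃ k k' : ℕ, (Vt f t s (sgF (s 0) (s 1) (∏ j, s j))).ncard = 2 ^ k ∧
      (Vt f (f * t) s (sgF (s 0) (s 1) (∏ j, s j))).ncard = 2 ^ k' ∧ Odd (k + k')

/-- both signs at the new prime `q` of the third class are bad -/
def Tyt (f t : ℕ) (s : Fin 3 → ℕ) (E : Finset ℕ) (q : ℕ) : Prop :=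
  (Vt f t (Function.update s 2 (s 2 * q)) E ≠ {(1, 1)} ∨
    Vt f (f * t) (Function.update s 2 (s 2 * q)) E ≠ {(1, 1)}) ∧
  (Vt f t (Function.update s 2 (s 2 * q)) (insert q E) ≠ {(1, 1)} ∨
    Vt f (f * t) (Function.update s 2 (s 2 * q)) (insert q E) ≠ {(1, 1)})

open Classical in
/-- **HALF** (the primes with two bad signs have density at most one half). -/
def St_HALFt : Prop := ∀ (f t X : ℕ) (s : Fin 3 → ℕ) (E : Finset ℕ), f.Prime → AdT (f * t) →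
  Squarefree (∏ j, s j) → Odd (∏ j, s j) → Nat.Coprime (f * t) (∏ j, s j) →
  E ⊆ (∏ j, s j).primeFactors → Vt f t s E = {(1, 1)} → Vt f (f * t) s E = {(1, 1)} →
  (8 * (f * t) * (∏ j, s j : ℕ) : ℝ) < (X : ℝ) ^ (1 / 3 : ℝ) →
    ∑ q ∈ (Pt X).filter (fun q => Tyt f t s E q), 1 / ((q : ℝ) - 1) ≤
      (∑ q ∈ Pt X, 1 / ((q : ℝ) - 1)) / 2 + Dsc X (8 * (f * t) * ∏ j, s j)

open Classical in
/-- **BOX** (the box theorem of Erdős for sets of positive density). -/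
def St_BOX : Prop := ∀ (m : ℕ) (c : ℝ), 0 < c → ∃ (n : ℕ) (c' : ℝ), 2 ≤ n ∧ 0 < c' ∧
  ∀ (α : Type) (Ω : Finset α) (G : (Fin m → Fin n) → Finset α),
    (∀ t, G t ⊆ Ω) → c * (n : ℝ) ^ m * (Ω.card : ℝ) ≤ ∑ t, ((G t).card : ℝ) →
    ∃ i i' : Fin m → Fin n, (∀ j, i j ≠ i' j) ∧
      c' * (Ω.card : ℝ) ≤ ((Ω.filter (fun x => ∀ S : Finset (Fin m),
        x ∈ G (fun j => if j ∈ S then i' j else i j))).card : ℝ)

/-- The pairs `(a, b)` of size `X` in the residue classes modulo `f D` for which the 2-Selmer groups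
of the twists by `t` and by `f t` have orders `4` and at most `8` (in some order). -/
def GoodT (f β D t X : ℕ) (x : ℕ × ℕ) : Prop :=
  X < 2 * x.1 ∧ x.1 ≤ X ∧ X < 8 * x.2 ∧ 4 * x.2 ≤ X ∧ x.1 % 3 = 1 ∧ x.2 % 3 = 2 ∧
    RC f β (f * D) x.1 x.2 ∧ Nat.Coprime x.1 x.2 ∧
    (Sel ((t : ℤ) * x.1) ((t : ℤ) * x.2)).Finite ∧
    (Sel (((f * t : ℕ) : ℤ) * x.1) (((f * t : ℕ) : ℤ) * x.2)).Finite ∧
    (((Sel ((t : ℤ) * x.1) ((t : ℤ) * x.2)).ncard = 4 ∧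
        (Sel (((f * t : ℕ) : ℤ) * x.1) (((f * t : ℕ) : ℤ) * x.2)).ncard ≤ 8) ∨
      ((Sel ((t : ℤ) * x.1) ((t : ℤ) * x.2)).ncard ≤ 8 ∧
        (Sel (((f * t : ℕ) : ℤ) * x.1) (((f * t : ℕ) : ℤ) * x.2)).ncard = 4))

open Classical in
/-- **MAINT** (many good pairs, with a constant that depends only on `f` and the number of the primes
of `t`). -/
def St_MAINT : Prop := ∀ f β : ℕ, Flip f β → ∀ m : ℕ, ∃ c : ℝ, 0 < c ∧ ∃ ε : ℝ, 0 < ε ∧ ∃ z : ℕ,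
  ∀ D : ℕ, AdT (f * D) → (∀ q ∈ D.primeFactors, z < q) → ∑ q ∈ D.primeFactors, 1 / (q : ℝ) ≤ ε →
  ∃ X0 : ℕ, ∀ X : ℕ, X0 ≤ X → ∀ t ∈ D.divisors, t.primeFactors.card ≤ m →
    c * (X : ℝ) ^ 2 / (D : ℝ) ^ 2 ≤ (((Icc 1 X ×ˢ Icc 1 X).filter (GoodT f β D t X)).card : ℝ)

/-- the properties of the pairs used for the counting of the curves -/
def BP (X : ℕ) (x : ℕ × ℕ) : Prop :=
  X < 2 * x.1 ∧ x.1 ≤ X ∧ X < 8 * x.2 ∧ 4 * x.2 ≤ X ∧ x.1 % 3 = 1 ∧ x.2 % 3 = 2 ∧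
    Nat.Coprime x.1 x.2

open Classical in
/-- **CV** (from pairs to curves, uniformly for the twists by `τ ≤ τ0`; `P` is any property). -/
def St_CVT : Prop := ∀ τ0 : ℕ, 0 < τ0 → ∃ K : ℝ, 0 < K ∧ ∀ X0 : ℕ, ∃ H0 : ℕ, ∀ H : ℕ, H0 ≤ H →
  ∃ X : ℕ, X0 ≤ X ∧ 1 ≤ X ∧ ((Cv 2 H).card : ℝ) ≤ K * (X : ℝ) ^ 2 ∧
    ∀ (τ : ℕ) (G : Finset (ℕ × ℕ)) (P : ℤ × ℤ → Prop), 0 < τ → τ ≤ τ0 → Squarefree τ →
      (∀ x ∈ G, BP X x) →
      (∀ x ∈ G, ∀ k : ℤ, (x.1 : ℤ) + x.2 = 3 * k →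
        P (Pool.Agent.Y285.RP.cc ((τ : ℤ) * x.1) ((τ : ℤ) * x.2) ((τ : ℤ) * k))) →
      G.card ≤ ((Cv 2 H).filter P).card

end Pool.Agent.Y667.QK
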