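import Pool.Agent.Y667.QK.Core2
import Pool.Agent.Y667.QK.MainT
import Pool.Agent.Y667.RZ.Fin2
import Pool.Agent.Y667.RP.Disc
import Pool.Agent.Y448.QK.VKN
import Pool.Agent.Y202.QK.GD
import Pool.Agent.Y587.QK.SEL
import Pool.Agent.Y655.QK.PAR
import Pool.Agent.Y697.QK.CVT
import Pool.Agent.Y665.QK.Half
import Pool.Agent.Y496.QK.BOX

/-!
# Project QK: the assembly
-/

set_option autoImplicit false

namespace Pool.Agent.Y667.QK

open Finset Filter Pool.Agent.W262.RK Pool.Agent.W307.RT Pool.Agent.W307.RS Pool.Agent.W307.SE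
  Pool.Agent.W307.FK Pool.Agent.Y667.RP Pool.Agent.Y667.RZ

theorem inp : Inp where
  ng := Pool.Agent.Y448.QK.NG
  vn := Pool.Agent.Y448.QK.VN
  sel := Pool.Agent.Y587.QK.SEL
  par := Pool.Agent.Y655.QK.PAR Pool.Agent.Y212.RZ.LAG
  low := Pool.Agent.Y212.RZ.LOW4

/-- **Many good pairs.** -/
theorem maint : St_MAINT :=
  MAINT Pool.Agent.Y246.RZ.SV3 Pool.Agent.Y153.RP.CNT
    (Pool.Agent.Y515.RP.ERR Pool.Agent.Y515.RP.EE) Pool.Agent.Y515.RP.EE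
    (Pool.Agent.Y202.QK.GD Pool.Agent.Y448.QK.VN Pool.Agent.Y448.QK.KILL Pool.Agent.Y448.QK.NG)
    inp (Pool.Agent.Y665.QK.HALFt Pool.Agent.Y448.QK.NG)

open Classical in
/-- from the height to the minimal discriminant, for finitely or infinitely many properties -/
theorem disc_ex {ι : Type} (J : ι → Prop) (P : ι → ℤ × ℤ → Prop)
    (h : ∃ c : ℝ, 0 < c ∧ ∃ H0 : ℕ, ∀ H : ℕ, H0 ≤ H → ∃ i, J i ∧
      c * ((Cv 2 H).card : ℝ) ≤ (((Cv 2 H).filter (P i)).card : ℝ)) :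
    ∃ c : ℝ, 0 < c ∧ ∃ Z0 : ℕ, ∀ Z : ℕ, Z0 ≤ Z → ∃ i, J i ∧
      c * ((Pool.Agent.TH344.DS.Dv Z).card : ℝ) ≤
        (((Pool.Agent.TH344.DS.Dv Z).filter (P i)).card : ℝ) := by
  obtain ⟨c, hc, H0, h⟩ := h
  obtain ⟨C, hC, Z0, hZ⟩ := dv_cv
  have hfin : ∀ Z, (DvS 2 Z).Finite := Pool.Agent.TH344.DS.excd.1
  refine ⟨c / C, by positivity, max Z0 (32 * H0), fun Z hZ0 => ?_⟩
  have h1 := hZ Z (le_trans (le_max_left _ _) hZ0)
  obtain ⟨i, hJ, h2⟩ := h (Z / 32) (by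
    rw [Nat.le_div_iff_mul_le (by norm_num)]
    have := le_trans (le_max_right _ _) hZ0
    omega)
  refine ⟨i, hJ, ?_⟩
  have h3 : ((Cv 2 (Z / 32)).filter (P i)).card ≤
      ((Pool.Agent.TH344.DS.Dv Z).filter (P i)).card := by
    apply card_le_card
    apply filter_subset_filter
    rw [← coe_subset, Pool.Agent.TH344.DS.coe_Dv hfin]
    exact Cv_sub Pool.Agent.W554.RS.mdl 2 (Z / 32) Z (Nat.mul_div_le Z 32)
  have h3' : (((Cv 2 (Z / 32)).filter (P i)).card : ℝ) ≤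
      (((Pool.Agent.TH344.DS.Dv Z).filter (P i)).card : ℝ) := by
    exact_mod_cast h3
  calc c / C * ((Pool.Agent.TH344.DS.Dv Z).card : ℝ)
      ≤ c / C * (C * ((Cv 2 (Z / 32)).card : ℝ)) := mul_le_mul_of_nonneg_left h1 (by positivity)
    _ = c * ((Cv 2 (Z / 32)).card : ℝ) := by field_simp
    _ ≤ _ := h2.trans h3'

/-- the list of the tuples `d`: products of two primes, all the primes distinct and larger than `N` -/
def Tup (m N : ℕ) (d : Fin m → ℕ) : Prop :=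
  ∃ q q' : Fin m → ℕ, (∀ j, d j = q j * q' j) ∧ (∀ j, (q j).Prime ∧ N < q j) ∧
    (∀ j, (q' j).Prime ∧ N < q' j) ∧ Function.Injective q ∧ Function.Injective q' ∧
    ∀ i j, q i ≠ q' j

open Classical in
/-- **Main theorem of the project**, ordering by the height. -/
theorem main_h (hPRM : St_PRM) {f β : ℕ} (hfl : Flip f β) (m N : ℕ) :
    ∃ L : Finset (Fin m → ℕ), (∀ d ∈ L, Tup m N d) ∧ ∃ δ : ℝ, 0 < δ ∧ ∃ H0 : ℕ, ∀ H : ℕ, H0 ≤ H →
      ∃ d ∈ L, δ * ((Cv 2 H).card : ℝ) ≤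
        (((Cv 2 H).filter (TwS (fun j => (d j : ℤ)))).card : ℝ) := by
  obtain ⟨n, q, hinj, hpr, δ, hδ, H0, h⟩ := core maint Pool.Agent.Y496.QK.BOX
    Pool.Agent.Y697.QK.CVT hPRM hfl m N
  let g : (Fin m → Fin n) × (Fin m → Fin n) → (Fin m → ℕ) :=
    fun t j => q j (t.1 j) * q j (t.2 j)
  refine ⟨((univ : Finset ((Fin m → Fin n) × (Fin m → Fin n))).filter
    (fun t => ∀ j, t.1 j ≠ t.2 j)).image g, ?_, δ, hδ, H0, fun H hH => ?_⟩
  · intro d hd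
    rw [mem_image] at hd
    obtain ⟨t, ht, rfl⟩ := hd
    rw [mem_filter] at ht
    refine ⟨fun j => q j (t.1 j), fun j => q j (t.2 j), fun j => rfl, fun j => hpr _ _,
      fun j => hpr _ _, ?_, ?_, ?_⟩
    · intro x y hxy
      exact (hinj _ _ _ _ hxy).1
    · intro x y hxy
      exact (hinj _ _ _ _ hxy).1
    · intro x y hxy
      obtain ⟨h1, h2⟩ := hinj _ _ _ _ hxy
      subst h1
      exact ht.2 x h2
  · obtain ⟨i, i', hne, hc⟩ := h H hH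
    refine ⟨g (i, i'), mem_image.2 ⟨(i, i'), mem_filter.2 ⟨mem_univ _, hne⟩, rfl⟩, ?_⟩
    exact hc

open Classical in
/-- **Main theorem of the project**, ordering by the minimal discriminant. -/
theorem main_d (hPRM : St_PRM) {f β : ℕ} (hfl : Flip f β) (m N : ℕ) :
    ∃ L : Finset (Fin m → ℕ), (∀ d ∈ L, Tup m N d) ∧ ∃ δ : ℝ, 0 < δ ∧ ∃ Z0 : ℕ, ∀ Z : ℕ, Z0 ≤ Z →
      ∃ d ∈ L, δ * ((Pool.Agent.TH344.DS.Dv Z).card : ℝ) ≤
        (((Pool.Agent.TH344.DS.Dv Z).filter (TwS (fun j => (d j : ℤ)))).card : ℝ) := by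
  obtain ⟨L, hL, h⟩ := main_h hPRM hfl m N
  exact ⟨L, hL, disc_ex (fun d => d ∈ L) (fun d => TwS (fun j => (d j : ℤ))) h⟩

end Pool.Agent.Y667.QK
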