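import Pool.Agent.Y667.QK.TW
import Pool.Agent.Y667.QK.StmR
import Pool.Agent.Y212.RZ.Selc2

/-!
# Project QK: many curves for one multiquadratic field
-/

set_option autoImplicit false

namespace Pool.Agent.Y667.QK

open Finset Filter Pool.Agent.W262.RK Pool.Agent.W307.RT Pool.Agent.W307.RS Pool.Agent.W307.SE
  Pool.Agent.W307.FK Pool.Agent.Y667.RP Pool.Agent.Y667.RZ Pool.Agent.Y285.RP

section alg

/-- the identity behind the twists -/
lemma prod_tw {m : ℕ} (u v : Fin m → ℤ) (T : Finset (Fin m)) :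
    (∏ j ∈ T, u j * v j) * ∏ j, u j = (∏ j, if j ∈ T then v j else u j) * (∏ j ∈ T, u j) ^ 2 := by
  have h1 : ∀ w : Fin m → ℤ, ∏ j ∈ T, w j = ∏ j, if j ∈ T then w j else 1 := by
    intro w
    rw [prod_ite_mem, univ_inter]
  rw [h1, h1 u, ← prod_pow, ← prod_mul_distrib, ← prod_mul_distrib]
  refine prod_congr rfl fun j _ => ?_
  split_ifs <;> ring

/-- the 2-Selmer group of the twist of the curve -/
lemma sel_tw {τ τ' r d x1 x2 k : ℤ} (hk : x1 + x2 = 3 * k) (h12 : x2 < x1) (h2 : 0 < x2)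
    (hτ : τ ≠ 0) (hd : d ≠ 0) (hr : r ≠ 0) (h : d * τ = τ' * r ^ 2)
    (hf : (Sel (τ' * x1) (τ' * x2)).Finite) :
    (SelR (d ^ 2 * (cc (τ * x1) (τ * x2) (τ * k)).1)
      (d ^ 3 * (cc (τ * x1) (τ * x2) (τ * k)).2)).Finite ∧
    (SelR (d ^ 2 * (cc (τ * x1) (τ * x2) (τ * k)).1)
      (d ^ 3 * (cc (τ * x1) (τ * x2) (τ * k)).2)).ncard = (Sel (τ' * x1) (τ' * x2)).ncard := by
  have hq : d * τ * x1 + d * τ * x2 = 3 * (d * τ * k) := by linear_combination (d * τ) * hk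
  have e1 : d ^ 2 * (cc (τ * x1) (τ * x2) (τ * k)).1 =
      (cc (d * τ * x1) (d * τ * x2) (d * τ * k)).1 := by
    unfold cc; ring
  have e2 : d ^ 3 * (cc (τ * x1) (τ * x2) (τ * k)).2 =
      (cc (d * τ * x1) (d * τ * x2) (d * τ * k)).2 := by
    unfold cc; ring
  have hdτ : d * τ ≠ 0 := mul_ne_zero hd hτ
  have hD : 4 * (cc (d * τ * x1) (d * τ * x2) (d * τ * k)).1 ^ 3 +
      27 * (cc (d * τ * x1) (d * τ * x2) (d * τ * k)).2 ^ 2 ≠ 0 := by
    rw [cc_disc hq]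
    have a1 : d * τ * x1 ≠ 0 := mul_ne_zero hdτ (by omega)
    have a2 : d * τ * x2 ≠ 0 := mul_ne_zero hdτ (by omega)
    have a3 : d * τ * x1 - d * τ * x2 ≠ 0 := by
      rw [← mul_sub]
      exact mul_ne_zero hdτ (by omega)
    have : 0 < (d * τ * x1) ^ 2 * (d * τ * x2) ^ 2 * (d * τ * x1 - d * τ * x2) ^ 2 := by positivity
    omega
  rw [e1, e2]
  refine Pool.Agent.Y212.RZ.SELC2 _ _ _ _ _ (τ' * x1) (τ' * x2) (r : ℚ) hD (cc_root hq)
    (by exact_mod_cast hr) ?_ ?_ hf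
  · have : d * τ * x1 - d * τ * k - -(d * τ * k) = τ' * x1 * r ^ 2 := by
      linear_combination x1 * h
    rw [this]
    push_cast
    ring
  · have : d * τ * x2 - d * τ * k - -(d * τ * k) = τ' * x2 * r ^ 2 := by
      linear_combination x2 * h
    rw [this]
    push_cast
    ring

end alg

/-- the product of the chosen primes -/
def tt {m n : ℕ} (q : Fin m → Fin n → ℕ) (t : Fin m → Fin n) : ℕ := ∏ j, q j (t j)

/-- the pairs for which the twist by `τ` has a 2-Selmer group of order four -/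
def Gx (f β D X τ : ℕ) (x : ℕ × ℕ) : Prop :=
  BP X x ∧ RC f β (f * D) x.1 x.2 ∧ (Sel ((τ : ℤ) * x.1) ((τ : ℤ) * x.2)).Finite ∧
    (Sel ((τ : ℤ) * x.1) ((τ : ℤ) * x.2)).ncard = 4

lemma good_or {f β D t X : ℕ} {x : ℕ × ℕ} (h : GoodT f β D t X x) :
    Gx f β D X t x ∨ Gx f β D X (f * t) x := by
  obtain ⟨h1, h2, h3, h4, h5, h6, h7, h8, h9, h10, h11⟩ := h
  rcases h11 with h11 | h11
  · exact Or.inl ⟨⟨h1, h2, h3, h4, h5, h6, h8⟩, h7, h9, h11.1⟩
  · exact Or.inr ⟨⟨h1, h2, h3, h4, h5, h6, h8⟩, h7, h10, h11.2⟩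

lemma sqf_dvd {M : ℕ} (hM : Squarefree M) {n : ℤ} (h : ∀ p ∈ M.primeFactors, (p : ℤ) ∣ n) :
    (M : ℤ) ∣ n := by
  rw [← Int.natAbs_dvd_natAbs, Int.natAbs_natCast]
  rw [← Nat.prod_primeFactors_of_squarefree hM]
  refine prod_primes_dvd _ (fun p hp => (Nat.prime_of_mem_primeFactors hp).prime) fun p hp => ?_
  have := h p hp
  rwa [← Int.natAbs_dvd_natAbs, Int.natAbs_natCast] at this

open Classical in
/-- the number of the pairs in the residue classes -/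
lemma card_RC {f β M X : ℕ} (hM : Squarefree M) (hX : M ≤ X) :
    (((Icc 1 X ×ˢ Icc 1 X).filter (fun x => RC f β M x.1 x.2)).card : ℝ) ≤
      4 * (X : ℝ) ^ 2 / (M : ℝ) ^ 2 := by
  have hM0 : 0 < M := Nat.pos_of_ne_zero hM.ne_zero
  have hMr : (0 : ℝ) < M := by exact_mod_cast hM0
  have h1 : ((Icc 1 X ×ˢ Icc 1 X).filter (fun x => RC f β M x.1 x.2)).card ≤
      (range (X / M + 1) ×ˢ range (X / M + 1)).card := by
    apply card_le_card_of_injOn (fun x => (x.1 / M, x.2 / M))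
    · intro x hx
      rw [mem_coe, mem_filter, mem_product, mem_Icc, mem_Icc] at hx
      rw [mem_coe, mem_product, mem_range, mem_range]
      exact ⟨Nat.lt_succ_of_le (Nat.div_le_div_right hx.1.1.2),
        Nat.lt_succ_of_le (Nat.div_le_div_right hx.1.2.2)⟩
    · intro x hx y hy hxy
      rw [mem_coe, mem_filter] at hx hy
      rw [Prod.mk.injEq] at hxy
      have hmod1 : x.1 ≡ y.1 [MOD M] := by
        rw [Nat.modEq_iff_dvd]
        refine sqf_dvd hM fun p hp => ?_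
        have a1 := (hx.2 p hp).1
        have a2 := (hy.2 p hp).1
        rw [← Nat.modEq_iff_dvd]
        exact a1.trans a2.symm
      have hmod2 : x.2 ≡ y.2 [MOD M] := by
        rw [Nat.modEq_iff_dvd]
        refine sqf_dvd hM fun p hp => ?_
        obtain ⟨-, a1, a1'⟩ := hx.2 p hp
        obtain ⟨-, a2, a2'⟩ := hy.2 p hp
        rw [← Nat.modEq_iff_dvd]
        by_cases hpf : p = f
        · exact (a1 hpf).trans (a2 hpf).symm
        · exact Nat.ModEq.add_right_cancel' 1 ((a1' hpf).trans (a2' hpf).symm)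
      refine Prod.ext ?_ ?_
      · rw [← Nat.div_add_mod x.1 M, ← Nat.div_add_mod y.1 M, hxy.1, hmod1]
      · rw [← Nat.div_add_mod x.2 M, ← Nat.div_add_mod y.2 M, hxy.2, hmod2]
  rw [card_product, card_range] at h1
  have h2 : ((X / M : ℕ) : ℝ) + 1 ≤ 2 * ((X : ℝ) / M) := by
    have a1 : ((X / M : ℕ) : ℝ) ≤ (X : ℝ) / M := Nat.cast_div_le
    have a2 : (1 : ℝ) ≤ (X : ℝ) / M := by
      rw [le_div_iff₀ hMr, one_mul]
      exact_mod_cast hX
    linarith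
  calc (((Icc 1 X ×ˢ Icc 1 X).filter (fun x => RC f β M x.1 x.2)).card : ℝ)
      ≤ (((X / M : ℕ) : ℝ) + 1) * (((X / M : ℕ) : ℝ) + 1) := by exact_mod_cast h1
    _ ≤ (2 * ((X : ℝ) / M)) * (2 * ((X : ℝ) / M)) := by gcongr
    _ = 4 * (X : ℝ) ^ 2 / (M : ℝ) ^ 2 := by ring

end Pool.Agent.Y667.QK
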