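import Pool.Agent.Y667.QK.Stm
import Pool.Agent.Y667.RZ.N7

/-!
# Project QK, the main argument, part 3: the pairs of primes
-/

set_option autoImplicit false

namespace Pool.Agent.Y667.QK

open Finset Pool.Agent.W262.RK Pool.Agent.W307.RT Pool.Agent.W307.RS Pool.Agent.W307.SE
  Pool.Agent.W307.FK Pool.Agent.Y667.RP Pool.Agent.Y667.RZ

/-- the residue classes -/
structure ModK (f β D z Q0 a0 b0 : ℕ) : Prop where
  two : 64 ∣ Q0
  ne : Q0 ≠ 0
  le : ∀ p : ℕ, p.Prime → p ∣ Q0 → p ≤ z ∨ p ∣ D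
  dvd : ∀ p : ℕ, p.Prime → p ≤ z ∨ p ∣ D → p ∣ Q0
  a64 : a0 % 64 = 33
  b64 : b0 % 64 = 1
  ap : ∀ p : ℕ, p.Prime → 3 ≤ p → p ≤ z ∨ p ∣ D → a0 % p = 1
  bp : ∀ p : ℕ, p.Prime → 3 ≤ p → p ≤ z ∨ p ∣ D → p ≠ f → (b0 + 1) % p = 0
  bf : b0 % f = β
  b1 : β ≠ 1
  fp : f.Prime
  f17 : 17 ≤ f
  zf : f ≤ z
  ca : a0.Coprime Q0
  cb : b0.Coprime Q0

lemma Flip.ge {f β : ℕ} (h : Flip f β) : 17 ≤ f := by
  by_contra hcon
  have h1 := h.m8
  have h2 := h.pr
  have : f = 1 ∨ f = 9 := by omega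
  rcases this with rfl | rfl
  · exact Nat.not_prime_one h2
  · exact absurd h2 (by norm_num)

lemma Flip.ne1 {f β : ℕ} (h : Flip f β) : β ≠ 1 := by
  rintro rfl
  have h2 := h.b2
  have h3 := h.ge
  have : NeZero f := ⟨by omega⟩
  rw [show (1 - ((1 : ℕ) : ℤ)) = 0 by norm_num, jacobiSym.zero_left (by omega)] at h2
  norm_num at h2

lemma Flip.ne0 {f β : ℕ} (h : Flip f β) : β ≠ 0 := by
  rintro rfl
  have h2 := h.b1
  have h3 := h.ge
  rw [Nat.cast_zero, jacobiSym.zero_left (by omega)] at h2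
  norm_num at h2

theorem exists_modK {f β z : ℕ} (hF : Flip f β) (hz : f ≤ z) : ∃ Qz : ℕ, 0 < Qz ∧ ∀ D : ℕ,
    D ≠ 0 → (∀ p : ℕ, p.Prime → p ∣ D → z < p) →
      ∃ a0 b0 : ℕ, ModK f β D z (Qz * D) a0 b0 := by
  have hf17 := hF.ge
  have pf := hF.pr
  obtain ⟨P1, hP1⟩ : ∃ P1 : ℕ, P1 = ∏ p ∈ ((Icc 3 z).filter Nat.Prime).erase f, p := ⟨_, rfl⟩
  have hP1ne : P1 ≠ 0 := by
    rw [hP1]
    exact prod_ne_zero_iff.2 fun p hp => (mem_filter.1 (mem_of_mem_erase hp)).2.ne_zero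
  have hdvd1 : ∀ p : ℕ, p.Prime → 3 ≤ p → p ≤ z → p ≠ f → p ∣ P1 := fun p hp h3 hpz h17 => by
    rw [hP1]
    exact dvd_prod_of_mem _ (mem_erase.2 ⟨h17, mem_filter.2 ⟨mem_Icc.2 ⟨h3, hpz⟩, hp⟩⟩)
  have hdvd1' : ∀ p : ℕ, p.Prime → p ∣ P1 → (3 ≤ p ∧ p ≤ z) ∧ p ≠ f := by
    intro p hp h
    rw [hP1] at h
    obtain ⟨q, hq, hpq⟩ := (hp.prime.dvd_finsetProd_iff _).1 h
    rw [mem_erase, mem_filter, mem_Icc] at hq
    have := (Nat.prime_dvd_prime_iff_eq hp hq.2.2).1 hpq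
    rw [this]
    exact ⟨hq.2.1, hq.1⟩
  refine ⟨64 * f * P1, by positivity, fun D hD0 hDz => ?_⟩
  obtain ⟨P0, hP0⟩ : ∃ P0 : ℕ, P0 = P1 * D := ⟨_, rfl⟩
  have hP0ne : P0 ≠ 0 := by rw [hP0]; exact mul_ne_zero hP1ne hD0
  have hdvd : ∀ p : ℕ, p.Prime → 3 ≤ p → p ≤ z ∨ p ∣ D → p ≠ f → p ∣ P0 := by
    intro p hp h3 h hpf
    rw [hP0]
    rcases h with h | h
    · exact (hdvd1 p hp h3 h hpf).mul_right _
    · exact h.mul_left _
  have hdvd' : ∀ p : ℕ, p.Prime → p ∣ P0 → (3 ≤ p ∧ (p ≤ z ∨ p ∣ D)) ∧ p ≠ f := by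
    intro p hp h
    rw [hP0] at h
    rcases (hp.dvd_mul).1 h with h | h
    · obtain ⟨⟨h1, h2⟩, h3⟩ := hdvd1' p hp h
      exact ⟨⟨h1, Or.inl h2⟩, h3⟩
    · have := hDz p hp h
      exact ⟨⟨by omega, Or.inr h⟩, by omega⟩
  have hcop2 : Nat.Coprime 2 P0 := by
    rw [Nat.Prime.coprime_iff_not_dvd Nat.prime_two]
    intro h
    have := (hdvd' 2 Nat.prime_two h).1
    omega
  have hcopf : Nat.Coprime f P0 := by
    rw [Nat.Prime.coprime_iff_not_dvd pf]
    intro h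
    exact (hdvd' f pf h).2 rfl
  have hcop64 : Nat.Coprime 64 P0 := Nat.Coprime.pow_left 6 hcop2
  have hcop : Nat.Coprime (64 * f) P0 := Nat.Coprime.mul_left hcop64 hcopf
  have hc64f : Nat.Coprime 64 f := by
    have : Nat.Coprime 2 f := by
      rw [Nat.Prime.coprime_iff_not_dvd Nat.prime_two]
      intro h
      have := (Nat.prime_dvd_prime_iff_eq Nat.prime_two pf).1 h
      omega
    exact Nat.Coprime.pow_left 6 this
  obtain ⟨a1, ha11, ha12⟩ := Nat.chineseRemainder hc64f 33 1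
  obtain ⟨b1, hb11, hb12⟩ := Nat.chineseRemainder hc64f 1 β
  obtain ⟨a0, ha1, ha2⟩ := Nat.chineseRemainder hcop a1 1
  obtain ⟨b0, hb1, hb2⟩ := Nat.chineseRemainder hcop b1 (P0 - 1)
  have a64 : a0 % 64 = 33 := by
    have h := (ha1.of_dvd (dvd_mul_right 64 f)).trans ha11
    rw [Nat.ModEq] at h
    omega
  have af : a0 % f = 1 := by
    have h := (ha1.of_dvd (dvd_mul_left f 64)).trans ha12
    rw [Nat.ModEq, Nat.mod_eq_of_lt (by omega : 1 < f)] at h
    exact h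
  have b64 : b0 % 64 = 1 := by
    have h := (hb1.of_dvd (dvd_mul_right 64 f)).trans hb11
    rw [Nat.ModEq] at h
    omega
  have bf : b0 % f = β := by
    have h := (hb1.of_dvd (dvd_mul_left f 64)).trans hb12
    rw [Nat.ModEq, Nat.mod_eq_of_lt hF.lt] at h
    exact h
  have ap : ∀ p : ℕ, p.Prime → 3 ≤ p → p ≤ z ∨ p ∣ D → a0 % p = 1 := by
    intro p hp h3 hpz
    rcases eq_or_ne p f with h17 | h17
    · rw [h17]; exact af
    have h1 : a0 ≡ 1 [MOD p] := ha2.of_dvd (hdvd p hp h3 hpz h17)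
    rw [Nat.ModEq, Nat.mod_eq_of_lt (by omega : 1 < p)] at h1
    exact h1
  have bp : ∀ p : ℕ, p.Prime → 3 ≤ p → p ≤ z ∨ p ∣ D → p ≠ f → (b0 + 1) % p = 0 := by
    intro p hp h3 hpz h17
    have h1 : b0 ≡ P0 - 1 [MOD p] := hb2.of_dvd (hdvd p hp h3 hpz h17)
    have h2 : b0 + 1 ≡ P0 - 1 + 1 [MOD p] := h1.add_right 1
    rw [Nat.sub_add_cancel (Nat.pos_of_ne_zero hP0ne)] at h2
    rw [h2]
    exact Nat.mod_eq_zero_of_dvd (hdvd p hp h3 hpz h17)
  have eQ : 64 * f * P1 * D = 64 * f * P0 := by rw [hP0]; ring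
  rw [eQ]
  have hpr : ∀ p : ℕ, p.Prime → p ∣ 64 * f * P0 →
      p = 2 ∨ p = f ∨ ((3 ≤ p ∧ (p ≤ z ∨ p ∣ D)) ∧ p ≠ f) := by
    intro p hp h
    rcases (hp.dvd_mul).1 h with h | h
    · rcases (hp.dvd_mul).1 h with h | h
      · left
        have : p ∣ 2 ^ 6 := by norm_num; exact h
        exact (Nat.prime_dvd_prime_iff_eq hp Nat.prime_two).1 (hp.dvd_of_dvd_pow this)
      · right; left
        exact (Nat.prime_dvd_prime_iff_eq hp pf).1 h
    · right; right
      exact hdvd' p hp h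
  refine ⟨a0, b0, (dvd_mul_right 64 f).mul_right _,
    mul_ne_zero (mul_ne_zero (by norm_num) pf.ne_zero) hP0ne, ?_, ?_, a64, b64, ap, bp, bf,
    hF.ne1, pf, hf17, hz, ?_, ?_⟩
  · intro p hp h
    rcases hpr p hp h with h | h | h
    · left; omega
    · left; omega
    · exact h.1.2
  · intro p hp h
    rcases Nat.lt_or_ge p 3 with h3 | h3
    · have := hp.two_le
      have h2 : p = 2 := by omega
      subst h2
      exact dvd_mul_of_dvd_left (dvd_mul_of_dvd_left (by norm_num) _) _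
    · rcases eq_or_ne p f with h17 | h17
      · rw [h17]
        exact dvd_mul_of_dvd_left (dvd_mul_left _ _) _
      · exact (hdvd p hp h3 h h17).mul_left _
  · apply Nat.Coprime.symm
    apply Nat.coprime_of_dvd
    intro p hp h1 h2
    rcases hpr p hp h1 with h | h | h
    · subst h; omega
    · rw [h] at h2
      rw [Nat.mod_eq_zero_of_dvd h2] at af
      omega
    · have := ap p hp h.1.1 h.1.2
      rw [Nat.mod_eq_zero_of_dvd h2] at this
      omega
  · apply Nat.Coprime.symm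
    apply Nat.coprime_of_dvd
    intro p hp h1 h2
    rcases hpr p hp h1 with h | h | h
    · subst h; omega
    · rw [h] at h2
      rw [Nat.mod_eq_zero_of_dvd h2] at bf
      exact hF.ne0 bf.symm
    · have := bp p hp h.1.1 h.1.2 h.2
      have h3 : p ∣ b0 + 1 := Nat.dvd_of_mod_eq_zero this
      have h4 : p ∣ 1 := (Nat.dvd_add_right h2).1 h3
      have := Nat.dvd_one.1 h4
      omega

section facts

variable {f β D z Q0 a0 b0 X : ℕ} {s : Fin 3 → ℕ} {E : Finset ℕ} {t : ℕ × ℕ}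

lemma AA_mod64 (hM : ModK f β D z Q0 a0 b0) (ht : t ∈ AA X Q0 a0 b0 s E) :
    (s 0 * t.1) % 64 = 33 ∧ (s 1 * t.2) % 64 = 1 := by
  unfold AA at ht
  rw [mem_filter] at ht
  obtain ⟨-, -, -, -, -, -, -, h1, h2, -⟩ := ht
  have h3 : s 0 * t.1 ≡ a0 [MOD 64] := h1.of_dvd hM.two
  have h4 : s 1 * t.2 ≡ b0 [MOD 64] := h2.of_dvd hM.two
  have h5 := hM.a64
  have h6 := hM.b64
  rw [Nat.ModEq] at h3 h4
  exact ⟨by omega, by omega⟩

lemma AA_eq (hz : 2 ≤ z) (hD : Dat z s) (hM : ModK f β D z Q0 a0 b0) (ht : t ∈ AA X Q0 a0 b0 s E) :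
    s 0 * t.1 - s 1 * t.2 = 32 * (s 2 * vv s t) := by
  have hlt := AA_lt ht
  obtain ⟨h1, h2⟩ := AA_mod64 hM ht
  have h32 : 32 ∣ s 0 * t.1 - s 1 * t.2 := by omega
  unfold AA at ht
  rw [mem_filter] at ht
  obtain ⟨-, -, -, -, -, -, -, -, -, h3, -⟩ := ht
  have hodd : Odd (s 2) := by
    have := hD.odd hz
    rw [Fin.prod_univ_three] at this
    exact (Nat.odd_mul.1 this).2
  have hcop : Nat.Coprime 32 (s 2) := by
    have : Nat.Coprime 2 (s 2) := (Nat.coprime_two_left).2 hodd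
    exact Nat.Coprime.pow_left 5 this
  have h4 : 32 * s 2 ∣ s 0 * t.1 - s 1 * t.2 := hcop.mul_dvd_of_dvd_of_dvd h32 h3
  unfold vv
  rw [← mul_assoc]
  exact (Nat.mul_div_cancel' h4).symm

lemma AA_odd (hz : 2 ≤ z) (hD : Dat z s) (hM : ModK f β D z Q0 a0 b0) (ht : t ∈ AA X Q0 a0 b0 s E) :
    Odd (vv s t) := by
  have h1 := AA_eq hz hD hM ht
  have hlt := AA_lt ht
  obtain ⟨h2, h3⟩ := AA_mod64 hM ht
  have h4 : Odd (s 2 * vv s t) := by
    rw [Nat.odd_iff]
    omega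
  exact (Nat.odd_mul.1 h4).2

lemma AA_small (hz : 2 ≤ z) (hD : Dat z s) (hM : ModK f β D z Q0 a0 b0) (ht : t ∈ AA X Q0 a0 b0 s E)
    {p : ℕ} (hp : p.Prime) (hpz : p ≤ z ∨ p ∣ D) : ¬ p ∣ vv s t := by
  intro hpv
  have h1 := AA_eq hz hD hM ht
  have hlt := AA_lt ht
  rcases Nat.lt_or_ge p 3 with h3 | h3
  · have := hp.two_le
    have h2 : p = 2 := by omega
    subst h2
    exact (Nat.not_even_iff_odd.2 (AA_odd hz hD hM ht)) (even_iff_two_dvd.2 hpv)
  · have h4 : p ∣ s 0 * t.1 - s 1 * t.2 := by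
      rw [h1]
      exact (hpv.mul_left _).mul_left _
    unfold AA at ht
    rw [mem_filter] at ht
    obtain ⟨-, -, -, -, -, -, -, h5, h6, -⟩ := ht
    have hpQ := hM.dvd p hp hpz
    have h7 : s 0 * t.1 ≡ a0 [MOD p] := h5.of_dvd hpQ
    have h8 : s 1 * t.2 ≡ b0 [MOD p] := h6.of_dvd hpQ
    have h9 : s 1 * t.2 ≡ s 0 * t.1 [MOD p] := (Nat.modEq_iff_dvd' hlt.le).2 h4
    have h10 : b0 ≡ a0 [MOD p] := h8.symm.trans (h9.trans h7)
    have h11 := hM.ap p hp h3 hpz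
    rcases eq_or_ne p f with h17 | h17
    · have h12 := hM.bf
      rw [← h17] at h12
      rw [Nat.ModEq, h11] at h10
      exact hM.b1 (h12.symm.trans h10)
    have h12 := hM.bp p hp h3 hpz h17
    rw [Nat.ModEq, h11] at h10
    rw [Nat.add_mod, h10, Nat.mod_eq_of_lt (by omega : 1 < p)] at h12
    have h13 : p ∣ 1 + 1 := Nat.dvd_of_mod_eq_zero h12
    have := Nat.le_of_dvd (by norm_num) h13
    omega

lemma AA_size (hz : 2 ≤ z) (hD : Dat z s) (hM : ModK f β D z Q0 a0 b0) (ht : t ∈ AA X Q0 a0 b0 s E) :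
    X < 128 * (s 2 * vv s t) ∧ 32 * (s 2 * vv s t) < X := by
  have h1 := AA_eq hz hD hM ht
  have hlt := AA_lt ht
  unfold AA at ht
  rw [mem_filter] at ht
  obtain ⟨-, h0, h00, h2, h3, h4, h5, -⟩ := ht
  have : 0 < s 1 * t.2 := by
    rcases Nat.eq_zero_or_pos (s 1 * t.2) with h | h
    · omega
    · exact h
  omega

end facts

/-- the data with the factor `D`, for the density only -/
def wD (D : ℕ) (s : Fin 3 → ℕ) : Fin 3 → ℕ := Function.update s 0 (s 0 * D)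

lemma wD_zero (D : ℕ) (s : Fin 3 → ℕ) : wD D s 0 = s 0 * D := Function.update_self _ _ _

lemma wD_one (D : ℕ) (s : Fin 3 → ℕ) : wD D s 1 = s 1 := Function.update_of_ne (by decide) _ _

lemma wD_two (D : ℕ) (s : Fin 3 → ℕ) : wD D s 2 = s 2 := Function.update_of_ne (by decide) _ _

lemma wD_prod (D : ℕ) (s : Fin 3 → ℕ) : ∏ j, wD D s j = D * ∏ j, s j := by
  rw [Fin.prod_univ_three, Fin.prod_univ_three, wD_zero, wD_one, wD_two]
  ring

lemma wD_up (D q : ℕ) (s : Fin 3 → ℕ) : wD D (up s q) = up (wD D s) q := by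
  funext j
  fin_cases j
  · show wD D (up s q) 0 = up (wD D s) q 0
    rw [wD_zero, up_zero, up_zero, wD_zero]
  · show wD D (up s q) 1 = up (wD D s) q 1
    rw [wD_one, up_one, up_one, wD_one]
  · show wD D (up s q) 2 = up (wD D s) q 2
    rw [wD_two, up_two, up_two, wD_two]

/-- the remainders -/
theorem Rq_le (hCNT : St_CNT) {f β D z Q0 a0 b0 X : ℕ} {s : Fin 3 → ℕ} {E : Finset ℕ} (hz : 2 ≤ z)
    (hM : ModK f β D z Q0 a0 b0) (hD : Dat z s)
    (hE : E ⊆ (∏ j, s j).primeFactors) {q : ℕ}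
    (hq : Squarefree q) (hqz : ∀ p ∈ q.primeFactors, z < p)
    (hDs : D.Coprime (∏ j, s j)) (hX : 8 * (s 0 * s 1) * (s 2 * q) ≤ X) :
    Rq (AA X Q0 a0 b0 s E) (vv s) (gg (wD D s)) (mA X Q0 s) q ≤ er X Q0 s q := by
  classical
  have hq0 : q ≠ 0 := hq.ne_zero
  have hq1 : 1 ≤ q := Nat.pos_of_ne_zero hq0
  have hcopQ : ∀ n : ℕ, (∀ p : ℕ, p.Prime → p ∣ n → z < p) → n.Coprime D → n.Coprime Q0 := by
    intro n hn hnD
    apply Nat.coprime_of_dvd
    intro p hp h1 h2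
    have h4 := hn p hp h1
    rcases hM.le p hp h2 with h3 | h3
    · omega
    · have := Nat.dvd_gcd h1 h3
      rw [hnD] at this
      exact hp.one_lt.ne' (Nat.dvd_one.1 this)
  have hsQ : ∀ j, (s j).Coprime Q0 := fun j => hcopQ (s j) (fun p hp h =>
    hD.gt p hp (h.trans (Dat.dvd j))) (hDs.symm.coprime_dvd_left (Dat.dvd j))
  by_cases hqD : q.Coprime D
  swap
  · obtain ⟨p, hp, hpq, hps⟩ := Nat.Prime.not_coprime_iff_dvd.1 hqD
    have hprod : ∏ p ∈ q.primeFactors, gg (wD D s) p = 0 := by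
      apply prod_eq_zero (Nat.mem_primeFactors.2 ⟨hp, hpq, hq0⟩)
      unfold gg
      rw [wD_zero, if_pos ((hps.mul_left _).mul_right _)]
    have hempty : ((AA X Q0 a0 b0 s E).filter (fun i => q ∣ vv s i)) = ∅ := by
      rw [filter_eq_empty_iff]
      intro t ht hqv
      exact AA_small hz hD hM ht hp (Or.inr hps) (hpq.trans hqv)
    unfold Rq
    rw [hempty, hprod]
    simpa using er_nonneg X Q0 s q
  have hqQ : q.Coprime Q0 := hcopQ q (fun p hp h =>
    hqz p (Nat.mem_primeFactors.2 ⟨hp, h, hq0⟩)) hqD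
  by_cases hc : q.Coprime (s 0 * s 1)
  · have h1 := hCNT X Q0 a0 b0 q s E ((by norm_num : 2 ∣ 64).trans hM.two) hM.ne hM.ca hM.cb hsQ
      hD.sqf hE hq1 (Nat.Coprime.mul_right hqQ hc) hX
    unfold Rq
    have hgg : ∏ p ∈ q.primeFactors, gg (wD D s) p =
        ((s 2).totient : ℝ) / ((s 2 * q).totient : ℝ) := by
      have h3 := gg_prod (s := wD D s) (q := q) (by rw [wD_two]; exact hD.ne 2) hq (by
        rw [wD_zero, wD_one]
        have e : s 0 * D * s 1 = (s 0 * s 1) * D := by ring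
        rw [e]
        exact Nat.Coprime.mul_right hc hqD)
      rw [wD_two] at h3
      exact h3
    rw [hgg]
    have h2 : ((AA X Q0 a0 b0 s E).filter (fun i => q ∣ vv s i)) =
        (AA X Q0 a0 b0 s E).filter (fun t => s 2 * q ∣ s 0 * t.1 - s 1 * t.2) := by
      apply filter_congr
      intro t ht
      rw [AA_eq hz hD hM ht]
      have hcop : Nat.Coprime q 32 := by
        have : Nat.Coprime q 2 := by
          rw [Nat.coprime_comm, Nat.Prime.coprime_iff_not_dvd Nat.prime_two]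
          intro h
          have := hqz 2 (Nat.mem_primeFactors.2 ⟨Nat.prime_two, h, hq0⟩)
          omega
        exact Nat.Coprime.pow_right 5 this
      have hs2 : 0 < s 2 := Nat.pos_of_ne_zero (hD.ne 2)
      have e : 32 * (s 2 * vv s t) = s 2 * (32 * vv s t) := by ring
      rw [e, Nat.mul_dvd_mul_iff_left hs2]
      constructor
      · intro h; exact h.mul_left _
      · intro h; exact hcop.dvd_of_dvd_mul_left h
    rw [h2]
    exact h1
  · -- both sides vanish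
    obtain ⟨p, hp, hpq, hps⟩ := Nat.Prime.not_coprime_iff_dvd.1 hc
    have hprod : ∏ p ∈ q.primeFactors, gg (wD D s) p = 0 := by
      apply prod_eq_zero (Nat.mem_primeFactors.2 ⟨hp, hpq, hq0⟩)
      unfold gg
      rw [wD_zero, wD_one, if_pos]
      have e : s 0 * D * s 1 = (s 0 * s 1) * D := by ring
      rw [e]
      exact hps.mul_right _
    have hcop := hD.cop
    have hempty : ((AA X Q0 a0 b0 s E).filter (fun i => q ∣ vv s i)) = ∅ := by
      rw [filter_eq_empty_iff]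
      intro t ht hqv
      have hlt := AA_lt ht
      have h1 := AA_eq hz hD hM ht
      have hpd : p ∣ s 0 * t.1 - s 1 * t.2 := by
        rw [h1]
        exact ((hpq.trans hqv).mul_left _).mul_left _
      unfold AA at ht
      rw [mem_filter] at ht
      obtain ⟨-, hm, hn, k1, k2, k3, k4, -⟩ := ht
      have hs01 : 8 * (s 0 * s 1) ≤ X := by
        refine le_trans ?_ hX
        apply Nat.le_mul_of_pos_right
        exact Nat.mul_pos (Nat.pos_of_ne_zero (hD.ne 2)) hq1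
      have hs0p : 0 < s 0 := Nat.pos_of_ne_zero (hD.ne 0)
      have hs1p : 0 < s 1 := Nat.pos_of_ne_zero (hD.ne 1)
      have n1 : s 0 < t.2 := by
        have : s 1 * s 0 < s 1 * t.2 := by
          have e : s 1 * s 0 = s 0 * s 1 := mul_comm _ _
          omega
        exact Nat.lt_of_mul_lt_mul_left this
      have n2 : s 1 < t.1 := by
        have : s 0 * s 1 < s 0 * t.1 := by omega
        exact Nat.lt_of_mul_lt_mul_left this
      have hsub : ∀ a b : ℕ, b ≤ a → p ∣ a - b → (p ∣ a ↔ p ∣ b) := by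
        intro a b hab h
        obtain ⟨c, hc⟩ : ∃ c, a = b + c := ⟨a - b, by omega⟩
        subst hc
        rw [Nat.add_sub_cancel_left] at h
        exact (Nat.dvd_add_iff_left h).symm
      have hiff := hsub _ _ hlt.le hpd
      rcases (hp.dvd_mul).1 hps with h | h
      · have h2 : p ∣ s 1 * t.2 := hiff.1 (h.mul_right _)
        rcases (hp.dvd_mul).1 h2 with h3 | h3
        · have := Nat.dvd_gcd h h3
          rw [hcop.1] at this
          exact hp.one_lt.ne' (Nat.dvd_one.1 this)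
        · have h4 : p = t.2 := (Nat.prime_dvd_prime_iff_eq hp hn).1 h3
          have := Nat.le_of_dvd hs0p h
          omega
      · have h2 : p ∣ s 0 * t.1 := hiff.2 (h.mul_right _)
        rcases (hp.dvd_mul).1 h2 with h3 | h3
        · have := Nat.dvd_gcd h3 h
          rw [hcop.1] at this
          exact hp.one_lt.ne' (Nat.dvd_one.1 this)
        · have h4 : p = t.1 := (Nat.prime_dvd_prime_iff_eq hp hm).1 h3
          have := Nat.le_of_dvd hs1p h
          omega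
    unfold Rq
    rw [hempty, hprod]
    simpa using er_nonneg X Q0 s q

end Pool.Agent.Y667.QK
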