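import Pool.Agent.Y667.QK.K3

/-!
# Project QK, the main argument, part 4: the good pairs
-/

set_option autoImplicit false

namespace Pool.Agent.Y667.QK

open Finset Pool.Agent.W262.RK Pool.Agent.W307.RT Pool.Agent.W307.RS Pool.Agent.W307.SE
  Pool.Agent.W307.FK Pool.Agent.Y667.RP Pool.Agent.Y667.RZ

/-- no class for the two twists -/
def Gd (f t : ℕ) (s : Fin 3 → ℕ) (E : Finset ℕ) : Prop :=
  Vt f t s E = {(1, 1)} ∧ Vt f (f * t) s E = {(1, 1)}

/-- the fixed data -/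
structure Ctx (f β D t z : ℕ) : Prop where
  flip : Flip f β
  adD : AdT (f * D)
  tD : t ∣ D
  gt : ∀ p : ℕ, p.Prime → p ∣ D → z < p
  zf : f ≤ z

lemma AdT.of_dvd {τ τ' : ℕ} (h : AdT τ) (hd : τ' ∣ τ) : AdT τ' := by
  have hs := h.sqf.squarefree_of_dvd hd
  have hm : ∀ q ∈ τ'.primeFactors, q ∈ τ.primeFactors := fun q hq =>
    Nat.primeFactors_mono hd h.sqf.ne_zero hq
  exact ⟨hs, fun q hq => h.m8 q (hm q hq), fun q hq q' hq' => h.res q (hm q hq) q' (hm q' hq')⟩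

section ctx

variable {f β D t z : ℕ}

lemma Ctx.adt (h : Ctx f β D t z) : AdT t := h.adD.of_dvd (h.tD.mul_left _)

lemma Ctx.adft (h : Ctx f β D t z) : AdT (f * t) := h.adD.of_dvd (Nat.mul_dvd_mul_left _ h.tD)

lemma Ctx.D0 (h : Ctx f β D t z) : D ≠ 0 := by
  rintro rfl
  exact h.adD.sqf.ne_zero (mul_zero _)

lemma Ctx.t0 (h : Ctx f β D t z) : t ≠ 0 := by
  rintro rfl
  exact h.D0 (zero_dvd_iff.1 h.tD)

lemma Ctx.f17 (h : Ctx f β D t z) : 17 ≤ f := h.flip.ge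

lemma Ctx.copt (h : Ctx f β D t z) {n : ℕ} (hn : D.Coprime n) : t.Coprime n :=
  hn.coprime_dvd_left h.tD

lemma Ctx.copf (h : Ctx f β D t z) {n : ℕ} (hz : ∀ p : ℕ, p.Prime → p ∣ n → z < p) :
    f.Coprime n := by
  rw [Nat.Prime.coprime_iff_not_dvd h.flip.pr]
  intro hd
  have := hz f h.flip.pr hd
  have := h.zf
  omega

lemma Ctx.copft (h : Ctx f β D t z) {s : Fin 3 → ℕ} (hD : Dat z s)
    (hDs : D.Coprime (∏ j, s j)) : (f * t).Coprime (∏ j, s j) :=
  Nat.Coprime.mul_left (h.copf hD.gt) (h.copt hDs)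

lemma Ctx.nd (h : Ctx f β D t z) {p : ℕ} (hp : p.Prime) (hpz : z < p) (hpD : ¬ p ∣ D) :
    ¬ p ∣ t ∧ ¬ p ∣ f * t := by
  have h1 : ¬ p ∣ t := fun hd => hpD (hd.trans h.tD)
  refine ⟨h1, fun hd => ?_⟩
  rcases (hp.dvd_mul).1 hd with h2 | h2
  · have := (Nat.prime_dvd_prime_iff_eq hp h.flip.pr).1 h2
    have := h.zf
    omega
  · exact h1 h2

end ctx

lemma jac8 {p : ℕ} (h8 : p % 8 = 1) {σ : ℤ} (hσ : σ = -1 ∨ σ = 2 ∨ σ = -2) :
    jacobiSym σ p = 1 := by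
  have hodd : Odd p := by rw [Nat.odd_iff]; omega
  have h1 : jacobiSym (-1) p = 1 := by
    rw [jacobiSym.at_neg_one hodd]
    exact ZMod.χ₄_nat_one_mod_four (by omega)
  have h2 : jacobiSym 2 p = 1 := by
    rw [jacobiSym.at_two hodd, ZMod.χ₈_nat_eq_if_mod_eight]
    rw [if_neg (by omega), if_pos (Or.inl h8)]
  rcases hσ with rfl | rfl | rfl
  · exact h1
  · exact h2
  · rw [show (-2 : ℤ) = (-1) * 2 by norm_num, jacobiSym.mul_left, h1, h2]
    norm_num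

/-- one of the two groups is nontrivial for both signs -/
lemma sigma_of {f t : ℕ} {s : Fin 3 → ℕ} {E : Finset ℕ} (ht : AdT t) (hodd : Odd (∏ j, s j))
    (hV : Vt f t s E = {(1, 1)})
    {σ : ℤ} (hσ : σ = -1 ∨ σ = 2 ∨ σ = -2) :
    ∃ p : ℕ, p.Prime ∧ p ∣ ∏ j, s j ∧ jacobiSym σ p = -1 := by
  by_contra hcon
  push Not at hcon
  have hsq : Squarefree σ := by
    rcases hσ with h | h | h
    · rw [h]; exact (IsUnit.neg isUnit_one).squarefree
    · rw [h]; exact Int.prime_two.squarefree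
    · rw [h]; exact Int.prime_two.neg.squarefree
  have h2 : ∀ q : ℕ, q.Prime → (q : ℤ) ∣ σ → q = 2 := by
    intro q hq h
    have h3 : (q : ℤ) ∣ 2 := by
      rcases hσ with h' | h' | h'
      · rw [h'] at h
        exact h.trans ⟨-2, by norm_num⟩
      · rw [h'] at h; exact h
      · rw [h'] at h; exact (Int.dvd_neg.1 h)
    have h4 : q ∣ 2 := by exact_mod_cast h3
    exact (Nat.prime_dvd_prime_iff_eq hq Nat.prime_two).1 h4
  have hmem : ((1, σ) : ℤ × ℤ) ∈ Vt f t s E := by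
    refine ⟨squarefree_one, hsq, by norm_num, by norm_num, ?_, ?_, ?_⟩
    · intro q hq h
      have h' : (q : ℤ) ∣ 1 := h
      have h'' : q ∣ 1 := by exact_mod_cast h'
      exact absurd (Nat.dvd_one.1 h'') hq.one_lt.ne'
    · intro q hq h
      rw [h2 q hq h]
      exact dvd_mul_right _ _
    · intro p hp
      have hpp := Nat.prime_of_mem_primeFactors hp
      have hpt : p % 8 = 1 ∨ (p ∣ ∏ j, s j) := by
        rcases (hpp.dvd_mul).1 (Nat.dvd_of_mem_primeFactors hp) with h | h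
        · exact Or.inl (ht.m8 p (Nat.mem_primeFactors.2 ⟨hpp, h, ht.sqf.ne_zero⟩))
        · exact Or.inr h
      have hp2 : p ≠ 2 := by
        rintro rfl
        rcases hpt with h | h
        · omega
        · exact (Nat.not_even_iff_odd.2 hodd) (even_iff_two_dvd.2 h)
      have hpσ : ¬ (p : ℤ) ∣ σ := fun h => hp2 (h2 p hpp h)
      have hp1 : ¬ (p : ℤ) ∣ 1 := by
        intro h
        exact hpp.one_lt.ne' (Nat.dvd_one.1 (by exact_mod_cast h))
      have hgcd : ∀ d : ℤ, ¬ (p : ℤ) ∣ d → Int.gcd d p = 1 := by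
        intro d hd
        rw [Int.gcd_comm]
        have h3 := (Nat.Prime.coprime_iff_not_dvd hpp).2 (fun h => hd (Int.natCast_dvd.2 h))
        exact h3
      have hσp : jacobiSym σ p ≠ -1 := by
        rcases hpt with h | h
        · rw [jac8 h hσ]
          norm_num
        · exact hcon p hpp h
      have e1 : dv p 1 = false := by
        unfold dv
        exact decide_eq_false hp1
      have e2 : dv p σ = false := by
        unfold dv
        exact decide_eq_false hpσ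
      have e3 : sgn p 1 = false := by
        unfold sgn sg0
        rw [hgcd 1 hp1, Nat.cast_one, Int.ediv_one, jacobiSym.one_left]
        decide
      have e4 : sgn p σ = false := by
        unfold sgn sg0
        rw [hgcd σ hpσ, Nat.cast_one, Int.ediv_one]
        exact decide_eq_false hσp
      show Lt f t s E p (dv p 1) (dv p σ) (sgn p 1) (sgn p σ)
      rw [e1, e2, e3, e4]
      unfold Lt
      split_ifs with h5
      · simp
      · intro j _
        unfold LR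
        split_ifs <;> simp
  rw [hV, Set.mem_singleton_iff, Prod.mk.injEq] at hmem
  have := hmem.2
  omega

/-- three more primes -/
lemma three (hNG : St_NG) {f β D t z : ℕ} (hC : Ctx f β D t z) {s : Fin 3 → ℕ} (hD : Dat z s)
    (hDs : D.Coprime (∏ j, s j)) {m n l : ℕ}
    (a b : ℤ) (hm : m.Prime) (hn : n.Prime) (hl : l.Prime) (hmn : m ≠ n) (hml : m ≠ l) (hnl : n ≠ l)
    (hms : ¬ m ∣ ∏ j, s j) (hns : ¬ n ∣ ∏ j, s j) (hls : ¬ l ∣ ∏ j, s j) (hmz : z < m)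
    (hnz : z < n) (hlz : z < l) (hmD : ¬ m ∣ D) (hnD : ¬ n ∣ D) (hlD : ¬ l ∣ D)
    (hG : Gd f t s (sgF a b (∏ j, s j))) :
    ∃ s' : Fin 3 → ℕ, s' 0 = s 0 * m ∧ s' 1 = s 1 * n ∧ s' 2 = s 2 * l ∧
      ∏ j, s' j = (∏ j, s j) * m * n * l ∧ Dat z s' ∧ D.Coprime (∏ j, s' j) ∧
      (Vt f t s' (sgF a b (∏ j, s' j))).ncard ≤ 8 ∧
      (Vt f (f * t) s' (sgF a b (∏ j, s' j))).ncard ≤ 8 := by
  have hf17 := hC.f17
  have hzf := hC.zf
  have key : ∀ (s : Fin 3 → ℕ) (j : Fin 3) (p : ℕ), Dat z s → D.Coprime (∏ j, s j) → p.Prime →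
      z < p → ¬ p ∣ D → ¬ p ∣ ∏ j, s j →
      Dat z (Function.update s j (s j * p)) ∧
      D.Coprime (∏ i, Function.update s j (s j * p) i) ∧
      (Vt f t (Function.update s j (s j * p))
        (sgF a b (∏ i, Function.update s j (s j * p) i))).ncard ≤
          2 * (Vt f t s (sgF a b (∏ j, s j))).ncard ∧
      (Vt f (f * t) (Function.update s j (s j * p))
        (sgF a b (∏ i, Function.update s j (s j * p) i))).ncard ≤
          2 * (Vt f (f * t) s (sgF a b (∏ j, s j))).ncard := by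
    intro s j p hD hDs hp hzp hpD hps
    obtain ⟨n1, n2⟩ := hC.nd hp hzp hpD
    have h1 := (hNG f t s (sgF a b (∏ j, s j)) p j hC.adt hD.sqf (hD.odd (by omega))
      (hC.copt hDs) (sgF_sub _ _ _) hp (by omega) n1 hps).2
    have h2 := (hNG f (f * t) s (sgF a b (∏ j, s j)) p j hC.adft hD.sqf (hD.odd (by omega))
      (hC.copft hD hDs) (sgF_sub _ _ _) hp (by omega) n2 hps).2
    refine ⟨⟨?_, ?_⟩, ?_, ?_⟩
    · rw [upd_prod, Nat.squarefree_mul_iff]
      exact ⟨((Nat.Prime.coprime_iff_not_dvd hp).2 hps).symm, hD.sqf, hp.squarefree⟩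
    · intro q hq h
      rw [upd_prod] at h
      rcases (hq.dvd_mul).1 h with h | h
      · exact hD.gt q hq h
      · rw [(Nat.prime_dvd_prime_iff_eq hq hp).1 h]
        exact hzp
    · rw [upd_prod]
      exact Nat.Coprime.mul_right hDs ((Nat.Prime.coprime_iff_not_dvd hp).2 hpD).symm
    · rw [upd_prod]
      exact ⟨h1 _ (sgF_up a b _ p hD.sqf.ne_zero hp), h2 _ (sgF_up a b _ p hD.sqf.ne_zero hp)⟩
  obtain ⟨d1, c1, v1, w1⟩ := key s 0 m hD hDs hm hmz hmD hms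
  obtain ⟨s1, hs1⟩ : ∃ s1, s1 = Function.update s 0 (s 0 * m) := ⟨_, rfl⟩
  rw [← hs1] at d1 c1 v1 w1
  have p1 : ∏ j, s1 j = (∏ j, s j) * m := by rw [hs1]; exact upd_prod s 0 m
  have hn1 : ¬ n ∣ ∏ j, s1 j := by
    rw [p1]
    intro h
    rcases (hn.dvd_mul).1 h with h | h
    · exact hns h
    · exact hmn ((Nat.prime_dvd_prime_iff_eq hn hm).1 h).symm
  obtain ⟨d2, c2, v2, w2⟩ := key s1 1 n d1 c1 hn hnz hnD hn1
  obtain ⟨s2, hs2⟩ : ∃ s2, s2 = Function.update s1 1 (s1 1 * n) := ⟨_, rfl⟩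
  rw [← hs2] at d2 c2 v2 w2
  have p2 : ∏ j, s2 j = (∏ j, s j) * m * n := by rw [hs2, upd_prod s1 1 n, p1]
  have hl2 : ¬ l ∣ ∏ j, s2 j := by
    rw [p2]
    intro h
    rcases (hl.dvd_mul).1 h with h | h
    · rcases (hl.dvd_mul).1 h with h | h
      · exact hls h
      · exact hml ((Nat.prime_dvd_prime_iff_eq hl hm).1 h).symm
    · exact hnl ((Nat.prime_dvd_prime_iff_eq hl hn).1 h).symm
  obtain ⟨d3, c3, v3, w3⟩ := key s2 2 l d2 c2 hl hlz hlD hl2
  obtain ⟨s3, hs3⟩ : ∃ s3, s3 = Function.update s2 2 (s2 2 * l) := ⟨_, rfl⟩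
  rw [← hs3] at d3 c3 v3 w3
  have p3 : ∏ j, s3 j = (∏ j, s j) * m * n * l := by rw [hs3, upd_prod s2 2 l, p2]
  rw [hG.1, Set.ncard_singleton] at v1
  rw [hG.2, Set.ncard_singleton] at w1
  refine ⟨s3, ?_, ?_, ?_, p3, d3, c3, by omega, by omega⟩
  · rw [hs3, Function.update_of_ne (by decide), hs2, Function.update_of_ne (by decide), hs1,
      Function.update_self]
  · rw [hs3, Function.update_of_ne (by decide), hs2, Function.update_self, hs1,
      Function.update_of_ne (by decide)]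
  · rw [hs3, Function.update_self, hs2, Function.update_of_ne (by decide), hs1,
      Function.update_of_ne (by decide)]

/-- the order of the Selmer group -/
lemma four_of {A B : ℤ} (hLOW : St_LOW4) (hA : Squarefree A) (h1 : 1 < A) (hB : 0 < B)
    (hBA : B < A) (hf : (Sel A B).Finite) (h : (Sel A B).ncard ≤ 4) : (Sel A B).ncard = 4 :=
  le_antisymm h (hLOW A B hA h1 hB hBA hf)

/-- the Selmer conditions from the local groups -/
lemma sel_of (hVN : St_VN) (hSEL : St_SEL) (hPAR : St_PAR) (hLOW : St_LOW4) {f β D t z : ℕ}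
    (hC : Ctx f β D t z) {s : Fin 3 → ℕ} (hD : Dat z s) (hDs : D.Coprime (∏ j, s j))
    (hlt : s 1 < s 0)
    (heq : (s 0 : ℤ) - s 1 = 32 * s 2) (h8 : s 0 % 8 = 1) (h8' : s 1 % 8 = 1)
    (hRC : RC f β (f * D) (s 0) (s 1))
    (hσ : ∀ σ : ℤ, σ = -1 ∨ σ = 2 ∨ σ = -2 → ∃ p : ℕ, p.Prime ∧ p ∣ ∏ j, s j ∧ jacobiSym σ p = -1)
    (c1 : (Vt f t s (sgF (s 0) (s 1) (∏ j, s j))).ncard ≤ 8)
    (c2 : (Vt f (f * t) s (sgF (s 0) (s 1) (∏ j, s j))).ncard ≤ 8) :
    (Sel ((t : ℤ) * s 0) ((t : ℤ) * s 1)).Finite ∧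
    (Sel (((f * t : ℕ) : ℤ) * s 0) (((f * t : ℕ) : ℤ) * s 1)).Finite ∧
    (((Sel ((t : ℤ) * s 0) ((t : ℤ) * s 1)).ncard = 4 ∧
        (Sel (((f * t : ℕ) : ℤ) * s 0) (((f * t : ℕ) : ℤ) * s 1)).ncard ≤ 8) ∨
      ((Sel ((t : ℤ) * s 0) ((t : ℤ) * s 1)).ncard ≤ 8 ∧
        (Sel (((f * t : ℕ) : ℤ) * s 0) (((f * t : ℕ) : ℤ) * s 1)).ncard = 4)) := by
  have hf17 := hC.f17
  have hzf := hC.zf
  have hz2 : 2 ≤ z := by omega
  have hRm : ∀ τ : ℕ, τ ∣ f * D → RC f β τ (s 0) (s 1) := fun τ hτ q hq =>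
    hRC q (Nat.primeFactors_mono hτ hC.adD.sqf.ne_zero hq)
  have hft : f * t ∣ f * D := Nat.mul_dvd_mul_left _ hC.tD
  have htd : t ∣ f * D := hC.tD.mul_left _
  have S1 := hSEL f β t s hC.flip hC.adt hD.sqf (hD.odd hz2) (hC.copt hDs) heq h8 h8' (hRm t htd)
  have S2 := hSEL f β (f * t) s hC.flip hC.adft hD.sqf (hD.odd hz2) (hC.copft hD hDs) heq h8 h8'
    (hRm _ hft)
  have F1 := (hVN f t s (sgF (s 0) (s 1) (∏ j, s j)) hC.adt hD.sqf (hD.odd hz2) (hC.copt hDs)).1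
  have F2 := (hVN f (f * t) s (sgF (s 0) (s 1) (∏ j, s j)) hC.adft hD.sqf (hD.odd hz2)
    (hC.copft hD hDs)).1
  have n1 := Set.ncard_le_ncard S1 F1
  have n2 := Set.ncard_le_ncard S2 F2
  have G1 := F1.subset S1
  have G2 := F2.subset S2
  obtain ⟨k, k', hk, hk', hodd⟩ := hPAR f β t s hC.flip hC.adft hD.sqf (hD.odd hz2)
    (hC.copft hD hDs) heq h8 h8' (hRm _ hft) hσ
  have hs0 : Squarefree (s 0) := hD.sqf.squarefree_of_dvd (Dat.dvd 0)
  have hpos1 : 0 < s 1 := Nat.pos_of_ne_zero (hD.ne 1)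
  have low : ∀ τ : ℕ, τ ≠ 0 → Squarefree τ → τ.Coprime (s 0) →
      (Sel ((τ : ℤ) * s 0) ((τ : ℤ) * s 1)).Finite →
      4 ≤ (Sel ((τ : ℤ) * s 0) ((τ : ℤ) * s 1)).ncard := by
    intro τ hτ0 hτs hτc hfin
    have hτ1 : 0 < τ := Nat.pos_of_ne_zero hτ0
    apply hLOW _ _ _ _ _ _ hfin
    · have h1 : Squarefree (τ * s 0) := (Nat.squarefree_mul hτc).2 ⟨hτs, hs0⟩
      have h2 : ((τ : ℤ) * s 0) = ((τ * s 0 : ℕ) : ℤ) := by push_cast; rfl
      rw [h2]
      exact Int.squarefree_natCast.2 h1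
    · have h1 : 1 < τ * s 0 := by
        have : s 0 ≤ τ * s 0 := Nat.le_mul_of_pos_left _ hτ1
        omega
      exact_mod_cast h1
    · have h1 : 0 < τ * s 1 := Nat.mul_pos hτ1 hpos1
      exact_mod_cast h1
    · have h1 : τ * s 1 < τ * s 0 := Nat.mul_lt_mul_of_pos_left hlt hτ1
      exact_mod_cast h1
  have hft0 : f * t ≠ 0 := mul_ne_zero hC.flip.pr.ne_zero hC.t0
  have low1 := low t hC.t0 hC.adt.sqf ((hC.copt hDs).coprime_dvd_right (Dat.dvd 0)) G1
  have low2 := low (f * t) hft0 hC.adft.sqf ((hC.copft hD hDs).coprime_dvd_right (Dat.dvd 0)) G2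
  refine ⟨G1, G2, ?_⟩
  rw [hk] at c1 n1
  rw [hk'] at c2 n2
  have hk3 : k ≤ 3 := by
    by_contra hcon
    push Not at hcon
    have := Nat.pow_le_pow_right (n := 2) (by norm_num) hcon
    omega
  have hk3' : k' ≤ 3 := by
    by_contra hcon
    push Not at hcon
    have := Nat.pow_le_pow_right (n := 2) (by norm_num) hcon
    omega
  rcases Nat.lt_or_ge k 3 with h | h
  · left
    have h1 : 2 ^ k ≤ 2 ^ 2 := Nat.pow_le_pow_right (by norm_num) (by omega)
    exact ⟨by omega, by omega⟩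
  · right
    have h0 : k' ≠ 3 := by
      rintro rfl
      have : k = 3 := by omega
      rw [this] at hodd
      exact absurd hodd (by decide)
    have h1 : 2 ^ k' ≤ 2 ^ 2 := Nat.pow_le_pow_right (by norm_num) (by omega)
    exact ⟨by omega, by omega⟩

end Pool.Agent.Y667.QK
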