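import Pool.Agent.Y667.QK.Main0
import Pool.Agent.Y667.QF.Main

/-!
# Project QK: the rank over `ℚ(√f)`, `f` a prime congruent to 1 modulo 8
-/

set_option autoImplicit false

namespace Pool.Agent.Y667.QK.QF

open Finset Pool.Agent.W262.RK Pool.Agent.W307.RT Pool.Agent.W307.RS Pool.Agent.W307.SE
  Pool.Agent.W307.FK Pool.Agent.Y667.RP Pool.Agent.Y667.RZ Pool.Agent.Y667.QK
open Pool.Agent.Y285.RP Pool.Agent.Y285.RZ Pool.Agent.Y890.RZ

/-- the target -/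
def TQ (f : ℕ) (k : ℤ × ℤ) : Prop := Module.finrank ℤ (Sh k.1 k.2).toAffine.Point +
  Module.finrank ℤ (Sh ((f : ℤ) ^ 2 * k.1) ((f : ℤ) ^ 3 * k.2)).toAffine.Point ≤ 1

lemma ccf (f : ℤ) (a b k : ℤ) : cc (f * a) (f * b) (f * k) =
    (f ^ 2 * (cc a b k).1, f ^ 3 * (cc a b k).2) :=
  Prod.ext (Pool.Agent.Y697.QK.cct1 f a b k) (Pool.Agent.Y697.QK.cct2 f a b k)

lemma tq {f : ℕ} (hf0 : 0 < f) {a b k : ℤ} (h : a + b = 3 * k) (hb : 1 ≤ b) (hab : b < a)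
    (hf : (Sel a b).Finite) (hf' : (Sel (f * a) (f * b)).Finite)
    (hn : ((Sel a b).ncard = 4 ∧ (Sel (f * a) (f * b)).ncard ≤ 8) ∨
      ((Sel a b).ncard ≤ 8 ∧ (Sel (f * a) (f * b)).ncard = 4)) : TQ f (cc a b k) := by
  have hfI : (0 : ℤ) < f := by exact_mod_cast hf0
  obtain ⟨-, -, h1⟩ := tgw Pool.Agent.Y212.RZ.SELC2 h hb hab hf
  obtain ⟨-, -, h2⟩ := tgw Pool.Agent.Y212.RZ.SELC2 (a := f * a) (b := f * b) (k := f * k)
    (by linear_combination (f : ℤ) * h) (by nlinarith) (by nlinarith) hf'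
  rw [ccf] at h2
  dsimp only at h2
  have key : ∀ r n : ℕ, (1 ≤ r → 2 ^ (r + 2) ≤ n) → ∀ m : ℕ, n ≤ 2 ^ (m + 2) → r ≤ m := by
    intro r n h m hm
    rcases Nat.eq_zero_or_pos r with h0 | h0
    · omega
    · have := (Nat.pow_le_pow_iff_right (by norm_num : 1 < 2)).1 ((h h0).trans hm)
      omega
  unfold TQ
  rcases hn with ⟨n1, n2⟩ | ⟨n1, n2⟩
  · have r1 := key _ _ h1 0 (by rw [n1]; norm_num)
    have r2 := key _ _ h2 1 (n2.trans (by norm_num))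
    omega
  · have r1 := key _ _ h1 1 (n1.trans (by norm_num))
    have r2 := key _ _ h2 0 (by rw [n2]; norm_num)
    omega

lemma adT_f {f : ℕ} (hf : f.Prime) (h8 : f % 8 = 1) : AdT (f * 1) := by
  rw [mul_one]
  refine ⟨hf.squarefree, fun q hq => ?_, fun q hq q' hq' hne => ?_⟩
  · rw [hf.primeFactors, mem_singleton] at hq
    rw [hq, h8]
  · rw [hf.primeFactors, mem_singleton] at hq hq'
    exact absurd (hq.trans hq'.symm) hne

open Classical in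
/-- **The rank over `ℚ(√f)` is at most one for a positive proportion of the curves.** -/
theorem curvesQ (f β : ℕ) (hfl : Flip f β) : ∃ c : ℝ, 0 < c ∧ ∃ H0 : ℕ, ∀ H : ℕ, H0 ≤ H →
    c * ((Cv 2 H).card : ℝ) ≤ (((Cv 2 H).filter (TQ f)).card : ℝ) := by
  have hf0 := hfl.pr.pos
  obtain ⟨c, hc, ε, hε, z, hM⟩ := maint f β hfl 0
  obtain ⟨X0, hX0⟩ := hM 1 (adT_f hfl.pr hfl.m8) (by simp) (by simp [hε.le])
  obtain ⟨K, hK, hcv⟩ := Pool.Agent.Y697.QK.CVT 1 one_pos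
  obtain ⟨H0, hH0⟩ := hcv X0
  refine ⟨c / K, by positivity, H0, fun H hH => ?_⟩
  obtain ⟨X, hX1, hX2, hX3, hX4⟩ := hH0 H hH
  have h1 := hX0 X hX1 1 (by simp) (by simp)
  rw [Nat.cast_one, one_pow, div_one] at h1
  set G := (Icc 1 X ×ˢ Icc 1 X).filter (GoodT f β 1 1 X) with hG
  have a1 : G.card ≤ ((Cv 2 H).filter (TQ f)).card := by
    refine hX4 1 G _ one_pos le_rfl squarefree_one (fun x hx => ?_) fun x hx k hk => ?_
    · rw [hG, mem_filter] at hx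
      obtain ⟨-, g1, g2, g3, g4, g5, g6, g7, g8, -⟩ := hx
      exact ⟨g1, g2, g3, g4, g5, g6, g8⟩
    · rw [hG, mem_filter] at hx
      obtain ⟨-, g1, g2, g3, g4, g5, g6, g7, g8, g9, g10, g11⟩ := hx
      rw [Nat.cast_one, one_mul, one_mul] at g9 g11
      rw [mul_one] at g10 g11
      rw [Nat.cast_one, one_mul, one_mul, one_mul]
      exact tq hf0 hk (by omega) (by omega) g9 g10 g11
  have h4 : (G.card : ℝ) ≤ (((Cv 2 H).filter (TQ f)).card : ℝ) := by exact_mod_cast a1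
  calc c / K * ((Cv 2 H).card : ℝ) ≤ c / K * (K * (X : ℝ) ^ 2) :=
        mul_le_mul_of_nonneg_left hX3 (by positivity)
    _ = c * (X : ℝ) ^ 2 := by field_simp
    _ ≤ (G.card : ℝ) := h1
    _ ≤ _ := h4

/-- the multiplicities of the two characters -/
theorem mult_le {f : ℕ} (hf0 : f ≠ 0) {c : ℤ × ℤ} (hD : 4 * c.1 ^ 3 + 27 * c.2 ^ 2 ≠ 0)
    (hT : HasT 2 (Sh c.1 c.2))
    (h : TQ f c) (F : Type) [Field F] [NumberField F] [IsGalois ℚ F] (χ : (F ≃ₐ[ℚ] F) →* ℤˣ)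
    (s : F) (hs : s ^ 2 = (f : F)) (hσ : ∀ σ : F ≃ₐ[ℚ] F, σ s = (((χ σ : ℤˣ) : ℤ) : F) * s) :
    Module.finrank ℤ (Pool.Agent.W307.AT.Part F 1 (Sh c.1 c.2)) +
      Module.finrank ℤ (Pool.Agent.W307.AT.Part F χ (Sh c.1 c.2)) ≤ 1 := by
  have hfI : (f : ℤ) ≠ 0 := by exact_mod_cast hf0
  obtain ⟨F', -, hF'⟩ := Pool.Agent.W513.FK.parf
  obtain ⟨-, -, -, -, -, e1, e2, e3, hr, -, -⟩ := hF' c hD hT
  obtain ⟨φ, hφ⟩ := Pool.Agent.W605.AT.dsc F χ f s hfI (by rw [hs]; norm_num) hσ c.1 c.2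
  obtain ⟨ψ, hψ⟩ := Pool.Agent.W605.AT.dsc F 1 1 1 (by norm_num) (by norm_num)
    (by intro σ; simp) c.1 c.2
  have f1 := Pool.Agent.W307.RG.fin_tw hD hr (d := f) hfI
  have f2 := Pool.Agent.W307.RG.fin_tw hD hr (d := 1) (by norm_num)
  have g1 := LinearMap.finrank_le_finrank_of_injective (f := φ.toIntLinearMap) hφ
  have g2 := LinearMap.finrank_le_finrank_of_injective (f := ψ.toIntLinearMap) hψ
  have e1 : (1 : ℤ) ^ 2 * c.1 = c.1 := by ring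
  have e2 : (1 : ℤ) ^ 3 * c.2 = c.2 := by ring
  rw [e1, e2] at g2
  unfold TQ at h
  omega

open Classical in
/-- the rank over `ℚ(√f)` -/
theorem rank_le {f : ℕ} (hf0 : f ≠ 0) {c : ℤ × ℤ} (hD : 4 * c.1 ^ 3 + 27 * c.2 ^ 2 ≠ 0)
    (hT : HasT 2 (Sh c.1 c.2))
    (h : TQ f c) (F : Type) [Field F] [NumberField F] (s : F) (hs : s ^ 2 = (f : F))
    (hgen : IntermediateField.adjoin ℚ {s} = ⊤) :
    Module.finrank ℤ (ShK (c.1 : F) (c.2 : F)).toAffine.Point ≤ 1 := by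
  have hfI : (f : ℤ) ≠ 0 := by exact_mod_cast hf0
  obtain ⟨F', -, hF'⟩ := Pool.Agent.W513.FK.parf
  obtain ⟨-, -, -, -, -, e1, e2, e3, hr, -, -⟩ := hF' c hD hT
  have f1 := Pool.Agent.W307.RG.fin_tw hD hr (d := f) hfI
  have f2 := Pool.Agent.W307.RG.fin_tw hD hr (d := 1) (by norm_num)
  have e1 : (1 : ℤ) ^ 2 * c.1 = c.1 := by ring
  have e2 : (1 : ℤ) ^ 3 * c.2 = c.2 := by ring
  rw [e1, e2] at f2
  have hq := Pool.Agent.W307.RS.mq2 F 1 (fun _ => s) (fun _ => (f : ℤ))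
    (fun _ => by rw [hs]; norm_num)
    (fun _ => hfI) (by rw [Set.range_const]; exact hgen) c.1 c.2 hD
  have huniv : (Finset.univ : Finset (Finset (Fin 1))) = {∅, {0}} := by decide
  rw [huniv, Finset.sum_pair (by decide), Finset.prod_empty, Finset.prod_singleton, e1, e2,
    ← Module.finrank_eq_rank ℤ (Sh c.1 c.2).toAffine.Point,
    ← Module.finrank_eq_rank ℤ (Sh ((f : ℤ) ^ 2 * c.1) ((f : ℤ) ^ 3 * c.2)).toAffine.Point,
    ← Nat.cast_add] at hq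
  exact (Module.finrank_le_of_rank_le hq).trans h

end Pool.Agent.Y667.QK.QF
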