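import Pool.Agent.TH841.NF.One

/-!
# Project QK (helper667): the 2-torsion of the Tate-Shafarevich group over a number field
-/

set_option autoImplicit false

namespace Pool.Agent.Y667.QK

/-- **FIN** (the 2-torsion of the Tate-Shafarevich group over a number field is finite). -/
def St_FIN : Prop := ∀ (F : Type) [Field F] [NumberField F] (A B e1 e2 e3 : ℤ),
  4 * A ^ 3 + 27 * B ^ 2 ≠ 0 → (∀ x : ℤ, x ^ 3 + A * x + B = (x - e1) * (x - e2) * (x - e3)) →
    Finite {x : Pool.Agent.TH841.NF.D.Sha (Pool.Agent.TH841.NF.EF A B F) // 2 • x = 0}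

end Pool.Agent.Y667.QK
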