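import Pool.Agent.Y667.RZ.Sha
import Pool.Agent.Y723.QK.FIN
import Pool.Agent.Y723.QT.Crv
import Pool.Agent.Y697.QK.CVT

/-!
# Project QK: the multiquadratic field of one curve
-/

set_option autoImplicit false

namespace Pool.Agent.Y667.QK

open Finset Filter Pool.Agent.W262.RK Pool.Agent.W307.RT Pool.Agent.W307.RS Pool.Agent.W307.SE
  Pool.Agent.W307.FK Pool.Agent.Y667.RP Pool.Agent.Y667.RZ Pool.Agent.Y285.RP

/-- all the twists by the products of the `d i` have 2-Selmer groups of order four -/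
def TwS {m : ℕ} (d : Fin m → ℤ) (c : ℤ × ℤ) : Prop := ∀ T : Finset (Fin m),
  (SelR ((∏ i ∈ T, d i) ^ 2 * c.1) ((∏ i ∈ T, d i) ^ 3 * c.2)).Finite ∧
    (SelR ((∏ i ∈ T, d i) ^ 2 * c.1) ((∏ i ∈ T, d i) ^ 3 * c.2)).ncard = 4

lemma hasT_tw {A B q : ℤ} (hq : q ≠ 0) (hD : 4 * A ^ 3 + 27 * B ^ 2 ≠ 0)
    (hT : HasT 2 (Sh A B)) : HasT 2 (Sh (q ^ 2 * A) (q ^ 3 * B)) := by
  obtain ⟨F, -, hF⟩ := Pool.Agent.W513.FK.parf
  obtain ⟨-, -, -, -, -, e1, e2, e3, he, -, -⟩ := hF (A, B) hD hT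
  have he' := Pool.Agent.W307.RG.roots_tw he q
  obtain ⟨d12, d13, d23⟩ := Pool.Agent.W402.FK.dist (q ^ 2 * A) (q ^ 3 * B) (q * e1) (q * e2)
    (q * e3) (Pool.Agent.Y723.QT.disc_q hq hD) he'
  generalize q ^ 2 * A = A' at *
  generalize q ^ 3 * B = B' at *
  generalize q * e1 = f1 at *
  generalize q * e2 = f2 at *
  generalize q * e3 = f3 at *
  have h0 := he' 0
  have h1 := he' 1
  have h2 := he' (-1)
  have hs : f3 = -f1 - f2 := by linarith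
  subst hs
  have hA : A' = f1 * f2 + f1 * (-f1 - f2) + f2 * (-f1 - f2) := by linarith
  have hB : B' = -(f1 * f2 * (-f1 - f2)) := by linarith
  have q12 : (f1 : ℚ) ≠ f2 := by exact_mod_cast d12
  have q13 : (f1 : ℚ) ≠ -f1 - f2 := by exact_mod_cast d13
  have q23 : (f2 : ℚ) ≠ -f1 - f2 := by exact_mod_cast d23
  apply Pool.Agent.W672.FK.hasT2 (a := ((f2 : ℚ) - f1) / 3) (b := ((-(f1 : ℚ) - f2) - f1) / 3)
  · rw [hA]; push_cast; ring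
  · rw [hB]; push_cast; ring
  · intro h; apply q12; linarith
  · intro h; apply q13; linarith
  · intro h; apply q23; linarith

/-- **The rank and the Tate-Shafarevich group over the multiquadratic field.** -/
theorem field_of {m : ℕ} {d : Fin m → ℤ} (hd : ∀ i, d i ≠ 0) {c : ℤ × ℤ}
    (hD : 4 * c.1 ^ 3 + 27 * c.2 ^ 2 ≠ 0) (hT : HasT 2 (Sh c.1 c.2)) (h : TwS d c)
    (F : Type) [Field F] [NumberField F] (hF : Pool.Agent.TH841.NF.Gen F d) :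
    Pool.Agent.TH841.NF.D.rk (Pool.Agent.TH841.NF.EF c.1 c.2 F) = 0 ∧
    Pool.Agent.Y723.QT.F2 (Pool.Agent.TH841.NF.D.Sha (Pool.Agent.TH841.NF.EF c.1 c.2 F)) ∧
    Pool.Agent.Y723.QT.Kl (Pool.Agent.TH841.NF.D.Sha (Pool.Agent.TH841.NF.EF c.1 c.2 F)) m := by
  have hp : ∀ T : Finset (Fin m), ∏ i ∈ T, d i ≠ 0 := fun T => prod_ne_zero_iff.2 fun i _ => hd i
  have hD' : ∀ T : Finset (Fin m), 4 * ((∏ i ∈ T, d i) ^ 2 * c.1) ^ 3 +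
      27 * ((∏ i ∈ T, d i) ^ 3 * c.2) ^ 2 ≠ 0 := fun T => Pool.Agent.Y723.QT.disc_q (hp T) hD
  have hT' : ∀ T : Finset (Fin m),
      HasT 2 (Sh ((∏ i ∈ T, d i) ^ 2 * c.1) ((∏ i ∈ T, d i) ^ 3 * c.2)) :=
    fun T => hasT_tw (hp T) hD hT
  have hz := fun T : Finset (Fin m) => Pool.Agent.Y667.SHA.sha_zero4
    (c := ((∏ i ∈ T, d i) ^ 2 * c.1, (∏ i ∈ T, d i) ^ 3 * c.2)) (hD' T) (hT' T) (h T).1 (h T).2.le
  have hBd : ∀ T : Finset (Fin m), Pool.Agent.TH841.SH.Bd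
      (Sh ((∏ i ∈ T, d i) ^ 2 * c.1) ((∏ i ∈ T, d i) ^ 3 * c.2)) ((fun _ => (1 : ℝ)) T) := by
    intro T
    obtain ⟨Fp, -, hFp⟩ := Pool.Agent.W513.FK.parf
    obtain ⟨-, -, -, -, -, e1, e2, e3, he, -, -⟩ :=
      hFp ((∏ i ∈ T, d i) ^ 2 * c.1, (∏ i ∈ T, d i) ^ 3 * c.2) (hD' T) (hT' T)
    obtain ⟨f, hf⟩ := tors_iff.1 (hT' T)
    obtain ⟨h1, h2⟩ := Pool.Agent.Y667.SHA.sha_selR4 (hD' T) he f hf (h T).1
    refine ⟨h1, ?_⟩
    rw [(h T).2] at h2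
    have h3 : ∀ a b : ℕ, 2 ^ (a + 2) * b ≤ 4 → 2 ^ a * b ≤ 1 := by
      intro a b hab
      have h4 : 4 * (2 ^ a * b) ≤ 4 * 1 := by
        calc 4 * (2 ^ a * b) = 2 ^ (a + 2) * b := by ring
          _ ≤ 4 * 1 := hab
      exact Nat.le_of_mul_le_mul_left h4 (by norm_num)
    have h4 := h3 _ _ h2
    show _ ≤ (1 : ℝ)
    exact_mod_cast h4
  obtain ⟨e1, he1⟩ : ∃ e1 : ℤ, e1 ^ 3 + c.1 * e1 + c.2 = 0 := by
    obtain ⟨Fp, -, hFp⟩ := Pool.Agent.W513.FK.parf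
    obtain ⟨-, -, -, -, -, e1, e2, e3, he, -, -⟩ := hFp c hD hT
    exact ⟨e1, by rw [he e1]; ring⟩
  have hfg : ∀ T : Finset (Fin m), Module.Finite ℤ
      (Sh ((∏ i ∈ T, d i) ^ 2 * c.1) ((∏ i ∈ T, d i) ^ 3 * c.2)).toAffine.Point := fun T =>
    Pool.Agent.Y723.QT.fg_Q (hD' T) (Pool.Agent.Y723.QT.root_q he1)
  have hq0 : Pool.Agent.TH841.NF.D.HasDiv (Pool.Agent.TH841.NF.EF c.1 c.2 F) 0 :=
    ⟨0, fun x y _ => Subsingleton.elim x y⟩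
  have h1 := Pool.Agent.TH841.NF.one_field hF hd hD (fun _ => (1 : ℝ)) hBd hfg hq0
  rw [prod_const_one, add_zero] at h1
  have h2 : Pool.Agent.TH841.NF.D.rk (Pool.Agent.TH841.NF.EF c.1 c.2 F) = 0 := by
    by_contra hne
    have h3 : (2 : ℝ) ^ 1 ≤ 2 ^ Pool.Agent.TH841.NF.D.rk (Pool.Agent.TH841.NF.EF c.1 c.2 F) :=
      pow_le_pow_right₀ (by norm_num) (Nat.one_le_iff_ne_zero.2 hne)
    linarith
  obtain ⟨x, hx, hgen⟩ := hF
  have h3 : Pool.Agent.Y723.QT.Kl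
      (Pool.Agent.TH841.NF.D.Sha (Pool.Agent.TH841.NF.EF c.1 c.2 F)) (m + 0) := by
    refine Pool.Agent.Y723.QT.base_kl (r := x) (d := fun i => (d i : ℚ)) (fun i => ?_)
      (fun i => by exact_mod_cast hd i) hgen fun T => ?_
    · rw [hx i, map_intCast]
    · rw [Pool.Agent.TH841.NF.tw_Sh]
      intro k y hy
      rw [pow_zero, one_smul]
      exact (hz T).2 k y hy
  rw [add_zero] at h3
  exact ⟨h2, (Pool.Agent.Y723.QT.f2_iff (Pool.Agent.Y723.QT.tf_EF (F := F) hD he1)).2 ⟨m, h3⟩, h3⟩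

end Pool.Agent.Y667.QK
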